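import Pool.Agent.Y566.ON.Str
import Pool.Agent.Y566.ZM.Base

set_option autoImplicit false

/-! Faithful completeness of the orderings of one group, and the equivalences. -/

namespace Pool.Agent.Y566.ON

open Pool.Agent.W889.VC (PairStr PIso TwoLin Str Iso VCof Dich)

/-- Orderings of the group, copied to the natural numbers. -/
def OrdOf (A : Type) [AddCommGroup A] (x : XO) : Prop :=
  ∃ (_ : LinearOrder A) (_ : IsOrderedAddMonoid A) (e : ℕ ≃ A),
    (∀ m n, x.1 m n = true ↔ e m < e n) ∧ ∀ m n, e (x.2 m n) = e m + e n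

theorem Ph0.ordOf {x : XO} {c : ℕ → GA} {S : PairStr} (h : Ph0 x c S) : OrdOf GA x :=
  ⟨lo h.s1 h.s2, lo_ord h.s1 h.s2, h.E, h.ord, h.add⟩

/-- Faithful completeness. -/
def FC {Y : Type} [MeasurableSpace Y] (E : Y → Y → Prop) (K : Y → Prop) : Prop :=
  ∀ (a : ℕ → ℕ) (B : Set (Str a)), MeasurableSet B → (∀ x y, Iso x y → (x ∈ B ↔ y ∈ B)) →
    ∃ (B' : Set Y) (F : Y → Str a), MeasurableSet B' ∧ (∀ y z, E y z → (y ∈ B' ↔ z ∈ B')) ∧
      (∀ y ∈ B', K y) ∧ Measurable F ∧ (∀ y ∈ B', F y ∈ B) ∧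
      (∀ y ∈ B', ∀ z ∈ B', E y z ↔ Iso (F y) (F z)) ∧ ∀ x ∈ B, ∃ y ∈ B', Iso x (F y)

theorem OI.refl (x : XO) : OI x x := ⟨1, fun _ _ => rfl, fun _ _ => rfl⟩

theorem fc_GA : FC OI (OrdOf GA) := by
  intro a B hB hinv
  obtain ⟨B₀, F₀, k1, k2, k3, k4, k5, k6, k7⟩ := W889.VC.target_PL.strong a B hB hinv
  obtain ⟨D, hD, hD'⟩ := exists_dec
  have hst : ∀ y z, OI y z → y ∈ UU ∩ D ⁻¹' B₀ → z ∈ UU ∩ D ⁻¹' B₀ := by
    rintro y z hyz ⟨hy, hyB⟩
    have hz := UU_inv hyz hy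
    refine ⟨hz, ?_⟩
    obtain ⟨c, hc⟩ := hD' y hy
    obtain ⟨c', hc'⟩ := hD' z hz
    exact (k2 _ _ ((hc.iso_iff hc').1 hyz)).1 hyB
  refine ⟨UU ∩ D ⁻¹' B₀, F₀ ∘ D, UU_meas.inter (hD k1), fun y z hyz =>
    ⟨hst y z hyz, hst z y hyz.symm⟩, ?_, k4.comp hD, fun y hy => k5 _ hy.2, ?_, ?_⟩
  · rintro y ⟨hy, -⟩
    obtain ⟨c, hc⟩ := hD' y hy
    exact hc.ordOf
  · rintro y ⟨hy, hyB⟩ z ⟨hz, hzB⟩
    obtain ⟨c, hc⟩ := hD' y hy
    obtain ⟨c', hc'⟩ := hD' z hz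
    rw [hc.iso_iff hc']
    exact k6 _ hyB _ hzB
  · intro x hx
    obtain ⟨S, hS, hxS⟩ := k7 x hx
    obtain ⟨y, c, hc⟩ := exists_coded (k3 S hS)
    have hy : y ∈ UU := ⟨c, S, hc⟩
    obtain ⟨c', hc'⟩ := hD' y hy
    have h1 := (hc.iso_iff hc').1 (OI.refl y)
    have h2 : D y ∈ B₀ := (k2 _ _ h1).1 hS
    exact ⟨y, ⟨hy, h2⟩, hxS.trans ((k6 _ hS _ h2).1 h1)⟩

/-- Equivalence of orderings under automorphisms. -/
def AE {A : Type} [AddCommGroup A] (r s : A → A → Bool) : Prop :=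
  ∃ θ : A ≃+ A, ∀ a b, s (θ a) (θ b) = r a b

/-- Orderings of the group. -/
def IO {A : Type} [AddCommGroup A] (r : A → A → Bool) : Prop :=
  ∃ (_ : LinearOrder A) (_ : IsOrderedAddMonoid A), ∀ a b, r a b = true ↔ a < b

theorem fc_aut {A : Type} [AddCommGroup A] (e₀ : ℕ ≃ A) (h : FC OI (OrdOf A)) :
    FC (AE (A := A)) (IO (A := A)) := by
  classical
  let T : (A → A → Bool) → XO := fun r =>
    (fun m k => r (e₀ m) (e₀ k), fun m k => e₀.symm (e₀ m + e₀ k))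
  have hT : Measurable T := by
    refine Measurable.prodMk ?_ measurable_const
    exact measurable_pi_iff.2 fun m => measurable_pi_iff.2 fun k =>
      (measurable_pi_apply _).comp (measurable_pi_apply _)
  have hTi : ∀ r s, AE r s ↔ OI (T r) (T s) := by
    intro r s
    constructor
    · rintro ⟨θ, hθ⟩
      refine ⟨(e₀.trans θ.toEquiv).trans e₀.symm, fun m n => ?_, fun m n => ?_⟩
      · show s (e₀ (e₀.symm (θ (e₀ m)))) (e₀ (e₀.symm (θ (e₀ n)))) = r (e₀ m) (e₀ n)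
        rw [e₀.apply_symm_apply, e₀.apply_symm_apply, hθ]
      · show e₀.symm (e₀ (e₀.symm (θ (e₀ m))) + e₀ (e₀.symm (θ (e₀ n)))) =
          e₀.symm (θ (e₀ (e₀.symm (e₀ m + e₀ n))))
        rw [e₀.apply_symm_apply, e₀.apply_symm_apply, e₀.apply_symm_apply, map_add θ]
    · rintro ⟨σ, h1, h2⟩
      have hadd : ∀ a b, e₀ (σ (e₀.symm (a + b))) = e₀ (σ (e₀.symm a)) + e₀ (σ (e₀.symm b)) := by
        intro a b
        have h3 := h2 (e₀.symm a) (e₀.symm b)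
        have h4 : e₀.symm (e₀ (σ (e₀.symm a)) + e₀ (σ (e₀.symm b))) =
          σ (e₀.symm (e₀ (e₀.symm a) + e₀ (e₀.symm b))) := h3
        rw [e₀.apply_symm_apply, e₀.apply_symm_apply] at h4
        rw [← h4, e₀.apply_symm_apply]
      refine ⟨{ toEquiv := (e₀.symm.trans σ).trans e₀, map_add' := hadd }, fun a b => ?_⟩
      have h3 := h1 (e₀.symm a) (e₀.symm b)
      have h4 : s (e₀ (σ (e₀.symm a))) (e₀ (σ (e₀.symm b))) =
        r (e₀ (e₀.symm a)) (e₀ (e₀.symm b)) := h3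
      rw [e₀.apply_symm_apply, e₀.apply_symm_apply] at h4
      exact h4
  have hTe : ∀ y, OrdOf A y → ∃ r, IO r ∧ OI y (T r) := by
    rintro y ⟨o, ho, e, h1, h2⟩
    refine ⟨fun a b => decide (a < b), ⟨o, ho, fun a b => by rw [decide_eq_true_iff]⟩,
      e.trans e₀.symm, fun m n => ?_, fun m n => ?_⟩
    · show decide (e₀ (e₀.symm (e m)) < e₀ (e₀.symm (e n))) = y.1 m n
      rw [e₀.apply_symm_apply, e₀.apply_symm_apply, Bool.eq_iff_iff, decide_eq_true_iff, h1]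
    · show e₀.symm (e₀ (e₀.symm (e m)) + e₀ (e₀.symm (e n))) = e₀.symm (e (y.2 m n))
      rw [e₀.apply_symm_apply, e₀.apply_symm_apply, h2]
  have hTo : ∀ r, OrdOf A (T r) → IO r := by
    rintro r ⟨o, ho, e, h1, h2⟩
    have hadd : ∀ a b, e (e₀.symm (a + b)) = e (e₀.symm a) + e (e₀.symm b) := by
      intro a b
      have h3 := h2 (e₀.symm a) (e₀.symm b)
      have h4 : e (e₀.symm (e₀ (e₀.symm a) + e₀ (e₀.symm b))) = e (e₀.symm a) + e (e₀.symm b) := h3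
      rw [e₀.apply_symm_apply, e₀.apply_symm_apply] at h4
      exact h4
    have hinj : Function.Injective fun a => e (e₀.symm a) :=
      fun a b hab => e₀.symm.injective (e.injective hab)
    have hm1 : ∀ u v w : A, u ≤ v → u + w ≤ v + w := fun u v w h => add_le_add_left h w
    have hm2 : ∀ u v w : A, u ≤ v → w + u ≤ w + v := fun u v w h => add_le_add_right h w
    refine ⟨LinearOrder.lift' (fun a => e (e₀.symm a)) hinj, ?_, fun a b => ?_⟩
    · refine @IsOrderedAddMonoid.mk A _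
        (LinearOrder.lift' (fun a => e (e₀.symm a)) hinj).toPartialOrder.toPreorder ?_ ?_
      · intro a b hab c
        have h3 := hm1 (e (e₀.symm a)) (e (e₀.symm b)) (e (e₀.symm c)) hab
        rw [← hadd, ← hadd] at h3
        exact h3
      · intro a b hab c
        have h3 := hm2 (e (e₀.symm a)) (e (e₀.symm b)) (e (e₀.symm c)) hab
        rw [← hadd, ← hadd] at h3
        exact h3
    · show r a b = true ↔ e (e₀.symm a) < e (e₀.symm b)
      rw [← h1]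
      show _ ↔ r (e₀ (e₀.symm a)) (e₀ (e₀.symm b)) = true
      rw [e₀.apply_symm_apply, e₀.apply_symm_apply]
  intro a B hB hinv
  obtain ⟨B', F, k1, k2, k3, k4, k5, k6, k7⟩ := h a B hB hinv
  refine ⟨T ⁻¹' B', F ∘ T, hT k1, fun r s hrs => k2 _ _ ((hTi r s).1 hrs),
    fun r hr => hTo r (k3 _ hr), k4.comp hT, fun r hr => k5 _ hr, fun r hr s hs => ?_, ?_⟩
  · rw [hTi]
    exact k6 _ hr _ hs
  · intro x hx
    obtain ⟨y, hy, hxy⟩ := k7 x hx
    obtain ⟨r, -, hr⟩ := hTe y (k3 y hy)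
    have hr' : T r ∈ B' := (k2 _ _ hr).1 hy
    exact ⟨r, hr', hxy.trans ((k6 _ hy _ hr').1 hr)⟩

/-- Faithful completeness transfers Vaught's conjecture. -/
theorem FC.vaught {Y : Type} [TopologicalSpace Y] [MeasurableSpace Y] [BorelSpace Y]
    {E : Y → Y → Prop} {K : Y → Prop} (h : FC E K) (hv : VCof True E K) (a : ℕ → ℕ) :
    VCof True (Iso (a := a)) (fun _ => True) := by
  intro B hB hinv _
  obtain ⟨B', F, k1, k2, k3, k4, k5, k6, k7⟩ := h a B hB hinv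
  rcases hv B' k1 k2 k3 with ⟨f, hf⟩ | ⟨g, h1, h2, h3⟩
  · left
    refine ⟨fun n => F (f n), fun x hx => ?_⟩
    obtain ⟨y, hy, hxy⟩ := k7 x hx
    obtain ⟨n, hn⟩ := hf y hy
    have hfn := (k2 _ _ hn).2 hy
    exact ⟨n, ((k6 _ hfn _ hy).1 hn).trans hxy.symm⟩
  · right
    obtain ⟨j, h4, h5⟩ := W889.VC.cont_of_meas (k4.comp (h1 trivial).measurable)
    exact ⟨_, fun _ => h5, fun c => k5 _ (h2 _), fun c d hcd =>
      h4 (h3 _ _ ((k6 _ (h2 _) _ (h2 _)).2 hcd))⟩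

/-- Vaught's conjecture for all languages implies Vaught's conjecture for structures with an order
and an addition. -/
theorem vc_of_full (h : ∀ a : ℕ → ℕ, VCof True (Iso (a := a)) (fun _ => True)) (K : XO → Prop) :
    VCof True OI K := by
  intro B hB hinv _
  let T : ZM.XS 0 → XO := fun y => (y.1, y.2.1)
  have hTc : Continuous T := Continuous.prodMk continuous_fst (continuous_fst.comp continuous_snd)
  have hTm : Measurable T := Measurable.prodMk measurable_fst (measurable_fst.comp measurable_snd)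
  have hTi : ∀ y y', ZM.XIso y y' ↔ OI (T y) (T y') := by
    intro y y'
    constructor
    · rintro ⟨τ, h1, h2, -⟩
      exact ⟨τ, h1, h2⟩
    · rintro ⟨τ, h1, h2⟩
      exact ⟨τ, h1, h2, fun i => i.elim0⟩
  have hKi : ∀ y ∈ T ⁻¹' B, ∀ y', ZM.XIso y y' → y' ∈ T ⁻¹' B := fun y hy y' hyy' =>
    (hinv _ _ ((hTi y y').1 hyy')).1 hy
  have hd := h ZM.bn (ZM.enc '' (T ⁻¹' B))
    ((hTm hB).image_of_measurable_injOn ZM.enc_meas (fun _ _ _ _ h => ZM.enc_inj h))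
    (ZM.enc_image_inv hKi) (fun _ _ => trivial)
  have hd' : ZM.XDich (T ⁻¹' B) := by
    apply ZM.xdich_of
    rcases hd with ⟨f, hf⟩ | ⟨g, h1, h2, h3⟩
    · exact Or.inl ⟨f, hf⟩
    · exact Or.inr ⟨g, h1 trivial, h2, h3⟩
  rcases hd' with ⟨f, hf⟩ | ⟨g, h1, h2, h3⟩
  · left
    refine ⟨fun n => T (f n), fun x hx => ?_⟩
    obtain ⟨n, hn⟩ := hf (x.1, x.2, Fin.elim0) hx
    exact ⟨n, (hTi _ _).1 hn⟩
  · right
    exact ⟨fun c => T (g c), fun _ => hTc.comp h1, h2, fun c d hcd => h3 c d ((hTi _ _).2 hcd)⟩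

end Pool.Agent.Y566.ON
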