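import Mathlib

set_option autoImplicit false

/-! Lexicographic orders of finitely supported functions. -/

namespace Pool.Agent.Y566.ON

/-- Strict linear orders. -/
structure SL (r : ℕ → ℕ → Prop) : Prop where
  irrefl : ∀ m, ¬ r m m
  trans : ∀ a b c, r a b → r b c → r a c
  total : ∀ a b, a ≠ b → r a b ∨ r b a

theorem SL.rev {r : ℕ → ℕ → Prop} (h : SL r) : SL (fun a b => r b a) :=
  ⟨h.irrefl, fun a b c h1 h2 => h.trans c b a h2 h1, fun a b hab => (h.total a b hab).symm⟩

/-- The coefficient at the greatest point of the support is positive. -/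
def LP {M : Type} [Zero M] [LT M] (r : ℕ → ℕ → Prop) (a : ℕ →₀ M) : Prop :=
  ∃ n, 0 < a n ∧ ∀ m, r n m → a m = 0

section lp

variable {M : Type} [AddCommGroup M] [LinearOrder M] [IsOrderedAddMonoid M]
  {r : ℕ → ℕ → Prop}

theorem LP.add (hr : SL r) {a b : ℕ →₀ M} (ha : LP r a) (hb : LP r b) : LP r (a + b) := by
  obtain ⟨n, h1, h2⟩ := ha
  obtain ⟨m, h3, h4⟩ := hb
  by_cases hnm : n = m
  · subst hnm
    refine ⟨n, ?_, fun k hk => ?_⟩
    · rw [Finsupp.add_apply]
      exact add_pos h1 h3
    · rw [Finsupp.add_apply, h2 k hk, h4 k hk, add_zero]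
  · rcases hr.total n m hnm with h5 | h5
    · refine ⟨m, ?_, fun k hk => ?_⟩
      · rw [Finsupp.add_apply, h2 m h5, zero_add]
        exact h3
      · rw [Finsupp.add_apply, h2 k (hr.trans _ _ _ h5 hk), h4 k hk, add_zero]
    · refine ⟨n, ?_, fun k hk => ?_⟩
      · rw [Finsupp.add_apply, h4 n h5, add_zero]
        exact h1
      · rw [Finsupp.add_apply, h2 k hk, h4 k (hr.trans _ _ _ h5 hk), add_zero]

theorem not_LP_zero : ¬ LP r (0 : ℕ →₀ M) := by
  rintro ⟨n, h, -⟩
  rw [Finsupp.zero_apply] at h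
  exact lt_irrefl _ h

theorem LP.asymm (hr : SL r) {a : ℕ →₀ M} (ha : LP r a) : ¬ LP r (-a) := by
  intro h
  have := ha.add hr h
  rw [add_neg_cancel] at this
  exact not_LP_zero this

theorem exists_top (hr : SL r) (s : Finset ℕ) (hs : s.Nonempty) :
    ∃ n ∈ s, ∀ m ∈ s, ¬ r n m := by
  classical
  induction hs using Finset.Nonempty.cons_induction with
  | singleton a =>
    refine ⟨a, Finset.mem_singleton_self a, fun m hm => ?_⟩
    rw [Finset.mem_singleton.1 hm]
    exact hr.irrefl a
  | cons a s ha hs ih =>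
    obtain ⟨n, hn, h⟩ := ih
    by_cases h1 : r n a
    · refine ⟨a, Finset.mem_cons_self _ _, fun m hm h2 => ?_⟩
      rcases Finset.mem_cons.1 hm with rfl | h3
      · exact hr.irrefl _ h2
      · exact h m h3 (hr.trans _ _ _ h1 h2)
    · refine ⟨n, Finset.mem_cons_of_mem hn, fun m hm h2 => ?_⟩
      rcases Finset.mem_cons.1 hm with rfl | h3
      · exact h1 h2
      · exact h m h3 h2

theorem exists_lead (hr : SL r) {a : ℕ →₀ M} (ha : a ≠ 0) : ∃ n, a n ≠ 0 ∧ ∀ m, r n m → a m = 0 := by
  obtain ⟨n, h1, h2⟩ := exists_top hr a.support (Finsupp.support_nonempty_iff.2 ha)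
  refine ⟨n, Finsupp.mem_support_iff.1 h1, fun m hm => ?_⟩
  by_contra h3
  exact h2 m (Finsupp.mem_support_iff.2 h3) hm

theorem LP.total (hr : SL r) {a : ℕ →₀ M} (ha : a ≠ 0) : LP r a ∨ LP r (-a) := by
  obtain ⟨n, h1, h2⟩ := exists_lead hr ha
  rcases lt_or_gt_of_ne h1 with h3 | h3
  · right
    refine ⟨n, ?_, fun m hm => ?_⟩
    · rw [Finsupp.neg_apply]
      exact neg_pos.2 h3
    · rw [Finsupp.neg_apply, h2 m hm, neg_zero]
  · exact Or.inl ⟨n, h3, h2⟩

/-- The greatest point of the support is unique. -/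
theorem lead_unique (hr : SL r) {a : ℕ →₀ M} {n m : ℕ} (h1 : a n ≠ 0) (h2 : ∀ k, r n k → a k = 0)
    (h3 : a m ≠ 0) (h4 : ∀ k, r m k → a k = 0) : n = m := by
  by_contra hne
  rcases hr.total n m hne with h | h
  · exact h3 (h2 m h)
  · exact h1 (h4 n h)

end lp

section ind

variable {r : ℕ → ℕ → Prop}

/-- Positive with respect to both orders. -/
def PP (r : ℕ → ℕ → Prop) (a : ℕ →₀ ℤ) : Prop := LP r a ∧ LP (fun a b => r b a) a

/-- Indecomposable elements. -/
def Ind (r : ℕ → ℕ → Prop) (a : ℕ →₀ ℤ) : Prop := PP r a ∧ ∀ u w, PP r u → PP r w → a ≠ u + w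

/-- The basis elements. -/
noncomputable def bs (n : ℕ) : ℕ →₀ ℤ := Finsupp.single n 1

theorem bs_self (n : ℕ) : bs n n = 1 := Finsupp.single_eq_same

theorem bs_ne {n m : ℕ} (h : m ≠ n) : bs n m = 0 := Finsupp.single_eq_of_ne h

theorem PP_bs (hr : SL r) (n : ℕ) : PP r (bs n) := by
  have key : ∀ {r : ℕ → ℕ → Prop}, SL r → LP r (bs n) := by
    intro r hr
    refine ⟨n, by rw [bs_self]; exact one_pos, fun m hm => bs_ne ?_⟩
    rintro rfl
    exact hr.irrefl _ hm
  exact ⟨key hr, key hr.rev⟩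

theorem ind_bs (hr : SL r) (n : ℕ) : Ind r (bs n) := by
  refine ⟨PP_bs hr n, ?_⟩
  rintro u w ⟨⟨M, u1, u2⟩, m, u3, u4⟩ ⟨⟨M', w1, w2⟩, m', w3, w4⟩ h
  have hv : ∀ k, u k + w k = bs n k := fun k => by rw [h, Finsupp.add_apply]
  -- the greatest point of `u` is at most `n`
  have key : ∀ {u w : ℕ →₀ ℤ} {M M' : ℕ}, (∀ k, u k + w k = bs n k) → 0 < u M →
      (∀ k, r M k → u k = 0) → 0 < w M' → (∀ k, r M' k → w k = 0) → r n M → False := by
    intro u w M M' hv u1 u2 w1 w2 h5
    have hne : M ≠ n := by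
      rintro rfl
      exact hr.irrefl _ h5
    have h6 := hv M
    rw [bs_ne hne] at h6
    have h7 : w M ≠ 0 := by omega
    have h8 : ∀ k, r M k → w k = 0 := by
      intro k hk
      have h9 := hv k
      rw [u2 k hk, bs_ne, zero_add] at h9
      · exact h9
      · rintro rfl
        exact hr.irrefl _ (hr.trans _ _ _ h5 hk)
    have h9 := lead_unique hr h7 h8 (ne_of_gt w1) w2
    rw [← h9] at w1
    omega
  have key' : ∀ {u w : ℕ →₀ ℤ} {M M' : ℕ}, (∀ k, u k + w k = bs n k) → 0 < u M →
      (∀ k, r k M → u k = 0) → 0 < w M' → (∀ k, r k M' → w k = 0) → r M n → False := by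
    intro u w M M' hv u1 u2 w1 w2 h5
    have hne : M ≠ n := by
      rintro rfl
      exact hr.irrefl _ h5
    have h6 := hv M
    rw [bs_ne hne] at h6
    have h7 : w M ≠ 0 := by omega
    have h8 : ∀ k, r k M → w k = 0 := by
      intro k hk
      have h9 := hv k
      rw [u2 k hk, bs_ne, zero_add] at h9
      · exact h9
      · rintro rfl
        exact hr.irrefl _ (hr.trans _ _ _ hk h5)
    have h9 := lead_unique hr.rev h7 h8 (ne_of_gt w1) w2
    rw [← h9] at w1
    omega
  have hv' : ∀ k, w k + u k = bs n k := fun k => by rw [add_comm, hv]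
  have a1 : ¬ r n M := fun h5 => key hv u1 u2 w1 w2 h5
  have a2 : ¬ r n M' := fun h5 => key hv' w1 w2 u1 u2 h5
  have a3 : ¬ r m n := fun h5 => key' hv u3 u4 w3 w4 h5
  have a4 : ¬ r m' n := fun h5 => key' hv' w3 w4 u3 u4 h5
  have b1 : ∀ {u : ℕ →₀ ℤ} {M m : ℕ}, 0 < u M → (∀ k, r M k → u k = 0) → 0 < u m →
      (∀ k, r k m → u k = 0) → ¬ r n M → ¬ r m n → M = n := by
    intro u M m u1 u2 u3 u4 a1 a3
    by_contra hne
    rcases hr.total M n hne with h5 | h5
    · by_cases h6 : m = n
      · rw [h6] at u3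
        exact (ne_of_gt u3) (u2 n h5)
      · rcases hr.total m n h6 with h7 | h7
        · exact a3 h7
        · exact (ne_of_gt u3) (u2 m (hr.trans _ _ _ h5 h7))
    · exact a1 h5
  have c1 := b1 u1 u2 u3 u4 a1 a3
  have c2 := b1 w1 w2 w3 w4 a2 a4
  rw [c1] at u1
  rw [c2] at w1
  have := hv n
  rw [bs_self] at this
  omega

theorem bs_of_ind (hr : SL r) {a : ℕ →₀ ℤ} (h : Ind r a) : ∃ n, a = bs n := by
  obtain ⟨⟨⟨M, h1, h2⟩, m, h3, h4⟩, h5⟩ := h
  -- if `a - bs j` is positive for both orders, then `a` is decomposable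
  have key : ∀ j, PP r (a - bs j) → False := fun j hj =>
    h5 (bs j) (a - bs j) (PP_bs hr j) hj (by abel)
  have hsub : ∀ j k, (a - bs j) k = a k - bs j k := fun j k => Finsupp.sub_apply _ _ _
  by_cases hMm : M = m
  · subst hMm
    refine ⟨M, ?_⟩
    have hout : ∀ k, k ≠ M → a k = 0 := by
      intro k hk
      rcases hr.total k M hk with h6 | h6
      · exact h4 k h6
      · exact h2 k h6
    by_cases h6 : a M = 1
    · ext k
      by_cases hk : k = M
      · rw [hk, h6, bs_self]
      · rw [hout k hk, bs_ne hk]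
    · exfalso
      have h7 : 0 < a M - 1 := by omega
      refine key M ⟨⟨M, by rw [hsub, bs_self]; exact h7, fun k hk => ?_⟩,
        ⟨M, by rw [hsub, bs_self]; exact h7, fun k hk => ?_⟩⟩
      · have hne : k ≠ M := by
          rintro rfl
          exact hr.irrefl _ hk
        rw [hsub, h2 k hk, bs_ne hne, sub_zero]
      · have hne : k ≠ M := by
          rintro rfl
          exact hr.irrefl _ hk
        rw [hsub, h4 k hk, bs_ne hne, sub_zero]
  · exfalso
    have hmM : r m M := by
      rcases hr.total M m hMm with h6 | h6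
      · exact absurd (h2 m h6) (ne_of_gt h3)
      · exact h6
    by_cases h6 : ∃ j, r m j ∧ r j M
    · obtain ⟨j, h7, h8⟩ := h6
      have hjM : M ≠ j := by
        rintro rfl
        exact hr.irrefl _ h8
      have hjm : m ≠ j := by
        rintro rfl
        exact hr.irrefl _ h7
      refine key j ⟨⟨M, by rw [hsub, bs_ne hjM, sub_zero]; exact h1, fun k hk => ?_⟩,
        ⟨m, by rw [hsub, bs_ne hjm, sub_zero]; exact h3, fun k hk => ?_⟩⟩
      · have hne : k ≠ j := by
          rintro rfl
          exact hr.irrefl _ (hr.trans _ _ _ h8 hk)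
        rw [hsub, h2 k hk, bs_ne hne, sub_zero]
      · have hne : k ≠ j := by
          rintro rfl
          exact hr.irrefl _ (hr.trans _ _ _ h7 hk)
        rw [hsub, h4 k hk, bs_ne hne, sub_zero]
    · push Not at h6
      -- only two points
      have hout : ∀ k, k ≠ M → k ≠ m → a k = 0 := by
        intro k hk hk'
        rcases hr.total k m hk' with h7 | h7
        · exact h4 k h7
        · rcases hr.total k M hk with h8 | h8
          · exact absurd h8 (h6 k h7)
          · exact h2 k h8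
      have hmne : m ≠ M := fun h => hMm h.symm
      by_cases h7 : a M = 1
      · refine key M ⟨⟨m, by rw [hsub, bs_ne hmne, sub_zero]; exact h3, fun k hk => ?_⟩,
          ⟨m, by rw [hsub, bs_ne hmne, sub_zero]; exact h3, fun k hk => ?_⟩⟩
        · rw [hsub]
          by_cases hkM : k = M
          · rw [hkM, h7, bs_self, sub_self]
          · have hkm : k ≠ m := by
              rintro rfl
              exact hr.irrefl _ hk
            rw [hout k hkM hkm, bs_ne hkM, sub_zero]
        · have hkM : k ≠ M := by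
            rintro rfl
            exact hr.irrefl _ (hr.trans _ _ _ hk hmM)
          rw [hsub, h4 k hk, bs_ne hkM, sub_zero]
      · refine key M ⟨⟨M, ?_, fun k hk => ?_⟩,
          ⟨m, by rw [hsub, bs_ne hmne, sub_zero]; exact h3, fun k hk => ?_⟩⟩
        · rw [hsub, bs_self]
          omega
        · have hkM : k ≠ M := by
            rintro rfl
            exact hr.irrefl _ hk
          rw [hsub, h2 k hk, bs_ne hkM, sub_zero]
        · have hkM : k ≠ M := by
            rintro rfl
            exact hr.irrefl _ (hr.trans _ _ _ hk hmM)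
          rw [hsub, h4 k hk, bs_ne hkM, sub_zero]

theorem bs_inj {n m : ℕ} (h : bs n = bs m) : n = m := by
  by_contra hne
  have := bs_ne (n := m) (m := n) hne
  rw [← h, bs_self] at this
  exact one_ne_zero this

theorem LP_bs_sub (hr : SL r) {m n : ℕ} (hmn : m ≠ n) : LP r (bs n - bs m) ↔ r m n := by
  have hs : ∀ k, (bs n - bs m) k = bs n k - bs m k := fun k => Finsupp.sub_apply _ _ _
  constructor
  · rintro ⟨k, h1, h2⟩
    have hk : k = n := by
      by_contra hk
      rw [hs, bs_ne hk] at h1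
      by_cases hk' : k = m
      · rw [hk', bs_self] at h1
        omega
      · rw [bs_ne hk'] at h1
        omega
    rw [hk] at h2
    rcases hr.total m n hmn with h | h
    · exact h
    · have h3 := h2 m h
      rw [hs, bs_self, bs_ne hmn] at h3
      omega
  · intro h
    refine ⟨n, ?_, fun k hk => ?_⟩
    · rw [hs, bs_self, bs_ne hmn.symm]
      omega
    · have h3 : k ≠ n := by
        rintro rfl
        exact hr.irrefl _ hk
      have h4 : k ≠ m := by
        rintro rfl
        exact hr.irrefl _ (hr.trans _ _ _ hk h)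
      rw [hs, bs_ne h3, bs_ne h4, sub_zero]

end ind

end Pool.Agent.Y566.ON
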