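import Pool.Agent.Y566.ON.Zl
import Pool.Agent.Y566.ON.Lp

set_option autoImplicit false

/-! A torsion-free group all whose endomorphisms are given by integral matrices acting
simultaneously on three copies of a free group. -/

namespace Pool.Agent.Y566.ON

/-- The divisible hull. -/
abbrev F3 : Type := (ℕ →₀ ℚ) × (ℕ →₀ ℚ) × (ℕ →₀ ℚ)

/-- The local conditions. -/
structure Rc (a b d : ℚ) : Prop where
  a2 : ∀ p : ℕ, p.Prime → p ≠ 2 → p ≠ 7 → Zl p a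
  b3 : ∀ p : ℕ, p.Prime → p ≠ 3 → p ≠ 7 → Zl p b
  d5 : ∀ p : ℕ, p.Prime → p ≠ 5 → p ≠ 7 → Zl p d
  ab : Zl 7 (a - b)
  bd : Zl 7 (b - d)

theorem prime7 : Nat.Prime 7 := by norm_num

theorem prime5 : Nat.Prime 5 := by norm_num

theorem Rc.zero : Rc 0 0 0 :=
  ⟨fun _ _ _ _ => Zl.zero, fun _ _ _ _ => Zl.zero, fun _ _ _ _ => Zl.zero,
    by rw [sub_zero]; exact Zl.zero, by rw [sub_zero]; exact Zl.zero⟩

theorem Rc.add {a b d a' b' d' : ℚ} (h : Rc a b d) (h' : Rc a' b' d') :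
    Rc (a + a') (b + b') (d + d') := by
  refine ⟨fun p hp h1 h2 => (h.a2 p hp h1 h2).add hp (h'.a2 p hp h1 h2),
    fun p hp h1 h2 => (h.b3 p hp h1 h2).add hp (h'.b3 p hp h1 h2),
    fun p hp h1 h2 => (h.d5 p hp h1 h2).add hp (h'.d5 p hp h1 h2), ?_, ?_⟩
  · have := h.ab.add prime7 h'.ab
    rwa [show a - b + (a' - b') = a + a' - (b + b') by ring] at this
  · have := h.bd.add prime7 h'.bd
    rwa [show b - d + (b' - d') = b + b' - (d + d') by ring] at this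

theorem Rc.neg {a b d : ℚ} (h : Rc a b d) : Rc (-a) (-b) (-d) := by
  refine ⟨fun p hp h1 h2 => (h.a2 p hp h1 h2).neg hp, fun p hp h1 h2 => (h.b3 p hp h1 h2).neg hp,
    fun p hp h1 h2 => (h.d5 p hp h1 h2).neg hp, ?_, ?_⟩
  · have := h.ab.neg prime7
    rwa [show -(a - b) = -a - -b by ring] at this
  · have := h.bd.neg prime7
    rwa [show -(b - d) = -b - -d by ring] at this

/-- The group. -/
def GA : AddSubgroup F3 where
  carrier := {v | ∀ n, Rc (v.1 n) (v.2.1 n) (v.2.2 n)}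
  zero_mem' := fun _ => Rc.zero
  add_mem' := fun h h' n => (h n).add (h' n)
  neg_mem' := fun h n => (h n).neg

theorem mem_GA {v : F3} : v ∈ GA ↔ ∀ n, Rc (v.1 n) (v.2.1 n) (v.2.2 n) := Iff.rfl

/-- The embedding of integral vectors. -/
noncomputable def io : (ℕ →₀ ℤ) →+ (ℕ →₀ ℚ) := Finsupp.mapRange.addMonoidHom (Int.castAddHom ℚ)

theorem io_apply (c : ℕ →₀ ℤ) (n : ℕ) : io c n = (c n : ℚ) := rfl

theorem io_inj {c c' : ℕ →₀ ℤ} (h : io c = io c') : c = c' := by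
  ext n
  have := DFunLike.congr_fun h n
  rw [io_apply, io_apply] at this
  exact_mod_cast this

/-- Division by a power. -/
noncomputable def dv (p k : ℕ) (a : ℕ →₀ ℚ) : ℕ →₀ ℚ :=
  a.mapRange (fun q => q / (p : ℚ) ^ k) (zero_div _)

theorem dv_apply (p k : ℕ) (a : ℕ →₀ ℚ) (n : ℕ) : dv p k a n = a n / (p : ℚ) ^ k := rfl

theorem nsmul_dv {p : ℕ} (hp : p ≠ 0) (k : ℕ) (a : ℕ →₀ ℚ) : (p ^ k) • dv p k a = a := by
  ext n
  rw [Finsupp.smul_apply, dv_apply, nsmul_eq_mul]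
  push_cast
  rw [mul_div_cancel₀]
  exact pow_ne_zero _ (by exact_mod_cast hp)

/-- Infinitely divisible elements. -/
def Dv (p : ℕ) (v : GA) : Prop := ∀ k : ℕ, ∃ w : GA, (p ^ k) • w = v

theorem Dv.map {p : ℕ} {v : GA} (θ : GA →+ GA) (h : Dv p v) : Dv p (θ v) := by
  intro k
  obtain ⟨w, hw⟩ := h k
  exact ⟨θ w, by rw [← hw, map_nsmul]⟩

theorem Dv.rc {p : ℕ} (hp : p ≠ 0) {v : GA} (h : Dv p v) (k n : ℕ) :
    Rc (v.1.1 n / (p : ℚ) ^ k) (v.1.2.1 n / (p : ℚ) ^ k) (v.1.2.2 n / (p : ℚ) ^ k) := by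
  obtain ⟨w, hw⟩ := h k
  have h0 : (p : ℚ) ^ k ≠ 0 := pow_ne_zero _ (by exact_mod_cast hp)
  have h1 : v.1.1 n = (p : ℚ) ^ k * w.1.1 n := by
    rw [← hw]
    show ((p ^ k) • w.1.1) n = _
    rw [Finsupp.smul_apply, nsmul_eq_mul]
    push_cast
    rfl
  have h2 : v.1.2.1 n = (p : ℚ) ^ k * w.1.2.1 n := by
    rw [← hw]
    show ((p ^ k) • w.1.2.1) n = _
    rw [Finsupp.smul_apply, nsmul_eq_mul]
    push_cast
    rfl
  have h3 : v.1.2.2 n = (p : ℚ) ^ k * w.1.2.2 n := by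
    rw [← hw]
    show ((p ^ k) • w.1.2.2) n = _
    rw [Finsupp.smul_apply, nsmul_eq_mul]
    push_cast
    rfl
  rw [h1, h2, h3, mul_div_cancel_left₀ _ h0, mul_div_cancel_left₀ _ h0, mul_div_cancel_left₀ _ h0]
  exact w.2 n

theorem Rc.e1 {a : ℚ} (h : ∀ p : ℕ, p.Prime → p ≠ 2 → Zl p a) : Rc a 0 0 :=
  ⟨fun p hp h1 _ => h p hp h1, fun _ _ _ _ => Zl.zero, fun _ _ _ _ => Zl.zero,
    by rw [sub_zero]; exact h 7 prime7 (by norm_num), by rw [sub_zero]; exact Zl.zero⟩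

theorem Rc.e2 {a : ℚ} (h : ∀ p : ℕ, p.Prime → p ≠ 3 → Zl p a) : Rc 0 a 0 :=
  ⟨fun _ _ _ _ => Zl.zero, fun p hp h1 _ => h p hp h1, fun _ _ _ _ => Zl.zero,
    by rw [zero_sub]; exact (h 7 prime7 (by norm_num)).neg prime7,
    by rw [sub_zero]; exact h 7 prime7 (by norm_num)⟩

theorem Rc.e3 {a : ℚ} (h : ∀ p : ℕ, p.Prime → p ≠ 5 → Zl p a) : Rc 0 0 a :=
  ⟨fun _ _ _ _ => Zl.zero, fun _ _ _ _ => Zl.zero, fun p hp h1 _ => h p hp h1,
    by rw [sub_zero]; exact Zl.zero,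
    by rw [zero_sub]; exact (h 7 prime7 (by norm_num)).neg prime7⟩

theorem Rc.e7 {a : ℚ} (h : ∀ p : ℕ, p.Prime → p ≠ 7 → Zl p a) : Rc a a a :=
  ⟨fun p hp _ h1 => h p hp h1, fun p hp _ h1 => h p hp h1, fun p hp _ h1 => h p hp h1,
    by rw [sub_self]; exact Zl.zero, by rw [sub_self]; exact Zl.zero⟩

theorem zl_io (c : ℕ →₀ ℤ) (n p : ℕ) (hp : p.Prime) : Zl p (io c n) := by
  rw [io_apply]
  exact Zl.int hp _

/-- The three copies of the free group. -/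
noncomputable def e1 : (ℕ →₀ ℤ) →+ GA where
  toFun c := ⟨(io c, 0, 0), fun n => Rc.e1 fun p hp _ => zl_io c n p hp⟩
  map_zero' := by
    apply Subtype.ext
    show (io 0, (0 : ℕ →₀ ℚ), (0 : ℕ →₀ ℚ)) = 0
    rw [map_zero]
    rfl
  map_add' a b := by
    apply Subtype.ext
    show (io (a + b), (0 : ℕ →₀ ℚ), (0 : ℕ →₀ ℚ)) = (io a + io b, 0 + 0, 0 + 0)
    rw [map_add, add_zero]

/-- The three copies of the free group. -/
noncomputable def e2 : (ℕ →₀ ℤ) →+ GA where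
  toFun c := ⟨(0, io c, 0), fun n => Rc.e2 fun p hp _ => zl_io c n p hp⟩
  map_zero' := by
    apply Subtype.ext
    show ((0 : ℕ →₀ ℚ), io 0, (0 : ℕ →₀ ℚ)) = 0
    rw [map_zero]
    rfl
  map_add' a b := by
    apply Subtype.ext
    show ((0 : ℕ →₀ ℚ), io (a + b), (0 : ℕ →₀ ℚ)) = (0 + 0, io a + io b, 0 + 0)
    rw [map_add, add_zero]

/-- The three copies of the free group. -/
noncomputable def e3 : (ℕ →₀ ℤ) →+ GA where
  toFun c := ⟨(0, 0, io c), fun n => Rc.e3 fun p hp _ => zl_io c n p hp⟩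
  map_zero' := by
    apply Subtype.ext
    show ((0 : ℕ →₀ ℚ), (0 : ℕ →₀ ℚ), io 0) = 0
    rw [map_zero]
    rfl
  map_add' a b := by
    apply Subtype.ext
    show ((0 : ℕ →₀ ℚ), (0 : ℕ →₀ ℚ), io (a + b)) = (0 + 0, 0 + 0, io a + io b)
    rw [map_add, add_zero]

theorem e1_val (c : ℕ →₀ ℤ) : (e1 c).1 = (io c, 0, 0) := rfl

theorem e2_val (c : ℕ →₀ ℤ) : (e2 c).1 = (0, io c, 0) := rfl

theorem e3_val (c : ℕ →₀ ℤ) : (e3 c).1 = (0, 0, io c) := rfl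

theorem dv_zero (p k : ℕ) : dv p k 0 = 0 := by
  ext n
  rw [dv_apply]
  simp

theorem dv_e1 (c : ℕ →₀ ℤ) : Dv 2 (e1 c) := by
  intro k
  refine ⟨⟨(dv 2 k (io c), 0, 0), fun n => ?_⟩, ?_⟩
  · refine Rc.e1 fun p hp h => ?_
    rw [dv_apply]
    exact (zl_io c n p hp).div hp Nat.prime_two h k
  · apply Subtype.ext
    show ((2 ^ k) • dv 2 k (io c), (2 ^ k) • (0 : ℕ →₀ ℚ), (2 ^ k) • (0 : ℕ →₀ ℚ)) = (io c, 0, 0)
    rw [nsmul_dv two_ne_zero, nsmul_zero]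

theorem dv_e2 (c : ℕ →₀ ℤ) : Dv 3 (e2 c) := by
  intro k
  refine ⟨⟨(0, dv 3 k (io c), 0), fun n => ?_⟩, ?_⟩
  · refine Rc.e2 fun p hp h => ?_
    rw [dv_apply]
    exact (zl_io c n p hp).div hp Nat.prime_three h k
  · apply Subtype.ext
    show ((3 ^ k) • (0 : ℕ →₀ ℚ), (3 ^ k) • dv 3 k (io c), (3 ^ k) • (0 : ℕ →₀ ℚ)) = (0, io c, 0)
    rw [nsmul_dv three_ne_zero, nsmul_zero]

theorem dv_e3 (c : ℕ →₀ ℤ) : Dv 5 (e3 c) := by
  intro k
  refine ⟨⟨(0, 0, dv 5 k (io c)), fun n => ?_⟩, ?_⟩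
  · refine Rc.e3 fun p hp h => ?_
    rw [dv_apply]
    exact (zl_io c n p hp).div hp prime5 h k
  · apply Subtype.ext
    show ((5 ^ k) • (0 : ℕ →₀ ℚ), (5 ^ k) • (0 : ℕ →₀ ℚ), (5 ^ k) • dv 5 k (io c)) = (0, 0, io c)
    rw [nsmul_dv (by norm_num), nsmul_zero]

theorem dv_e7 (c : ℕ →₀ ℤ) : Dv 7 (e1 c + e2 c + e3 c) := by
  intro k
  refine ⟨⟨(dv 7 k (io c), dv 7 k (io c), dv 7 k (io c)), fun n => ?_⟩, ?_⟩
  · refine Rc.e7 fun p hp h => ?_
    rw [dv_apply]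
    exact (zl_io c n p hp).div hp prime7 h k
  · apply Subtype.ext
    show ((7 ^ k) • dv 7 k (io c), (7 ^ k) • dv 7 k (io c), (7 ^ k) • dv 7 k (io c)) =
      (io c + 0 + 0, 0 + io c + 0, 0 + 0 + io c)
    rw [nsmul_dv (by norm_num)]
    simp

theorem Dv.two {v : GA} (h : Dv 2 v) :
    v.1.2.1 = 0 ∧ v.1.2.2 = 0 ∧ ∀ p : ℕ, p.Prime → p ≠ 2 → ∀ n, Zl p (v.1.1 n) := by
  have h1 : v.1.2.1 = 0 := by
    ext n
    rw [Finsupp.zero_apply]
    exact Zl.eq_zero Nat.prime_two fun k =>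
      (h.rc two_ne_zero k n).b3 2 Nat.prime_two (by norm_num) (by norm_num)
  refine ⟨h1, ?_, ?_⟩
  · ext n
    rw [Finsupp.zero_apply]
    exact Zl.eq_zero Nat.prime_two fun k =>
      (h.rc two_ne_zero k n).d5 2 Nat.prime_two (by norm_num) (by norm_num)
  · intro p hp hp2 n
    by_cases h7 : p = 7
    · subst h7
      have := (v.2 n).ab
      rwa [h1, Finsupp.zero_apply, sub_zero] at this
    · exact (v.2 n).a2 p hp hp2 h7

theorem Dv.three {v : GA} (h : Dv 3 v) :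
    v.1.1 = 0 ∧ v.1.2.2 = 0 ∧ ∀ p : ℕ, p.Prime → p ≠ 3 → ∀ n, Zl p (v.1.2.1 n) := by
  have h1 : v.1.2.2 = 0 := by
    ext n
    rw [Finsupp.zero_apply]
    exact Zl.eq_zero Nat.prime_three fun k =>
      (h.rc three_ne_zero k n).d5 3 Nat.prime_three (by norm_num) (by norm_num)
  refine ⟨?_, h1, ?_⟩
  · ext n
    rw [Finsupp.zero_apply]
    exact Zl.eq_zero Nat.prime_three fun k =>
      (h.rc three_ne_zero k n).a2 3 Nat.prime_three (by norm_num) (by norm_num)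
  · intro p hp hp2 n
    by_cases h7 : p = 7
    · subst h7
      have := (v.2 n).bd
      rwa [h1, Finsupp.zero_apply, sub_zero] at this
    · exact (v.2 n).b3 p hp hp2 h7

theorem Dv.five {v : GA} (h : Dv 5 v) : v.1.1 = 0 ∧ v.1.2.1 = 0 := by
  refine ⟨?_, ?_⟩
  · ext n
    rw [Finsupp.zero_apply]
    exact Zl.eq_zero prime5 fun k =>
      (h.rc (by norm_num) k n).a2 5 prime5 (by norm_num) (by norm_num)
  · ext n
    rw [Finsupp.zero_apply]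
    exact Zl.eq_zero prime5 fun k =>
      (h.rc (by norm_num) k n).b3 5 prime5 (by norm_num) (by norm_num)

theorem Dv.seven {v : GA} (h : Dv 7 v) : v.1.1 = v.1.2.1 ∧ v.1.2.1 = v.1.2.2 := by
  refine ⟨?_, ?_⟩
  · ext n
    refine sub_eq_zero.1 (Zl.eq_zero prime7 fun k => ?_)
    rw [sub_div]
    exact (h.rc (by norm_num) k n).ab
  · ext n
    refine sub_eq_zero.1 (Zl.eq_zero prime7 fun k => ?_)
    rw [sub_div]
    exact (h.rc (by norm_num) k n).bd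

/-- Endomorphisms act on integral vectors. -/
theorem exists_th (θ : GA →+ GA) (c : ℕ →₀ ℤ) :
    ∃ c' : ℕ →₀ ℤ, θ (e1 c) = e1 c' ∧ θ (e2 c) = e2 c' ∧ θ (e3 c) = e3 c' := by
  have h1 := ((dv_e1 c).map θ).two
  have h2 := ((dv_e2 c).map θ).three
  have h3 := ((dv_e3 c).map θ).five
  have h4 := ((dv_e7 c).map θ).seven
  rw [map_add, map_add] at h4
  have h5 : (θ (e1 c)).1.1 = (θ (e2 c)).1.2.1 := by
    have h6 : (θ (e1 c)).1.1 + (θ (e2 c)).1.1 + (θ (e3 c)).1.1 =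
      (θ (e1 c)).1.2.1 + (θ (e2 c)).1.2.1 + (θ (e3 c)).1.2.1 := h4.1
    rw [h2.1, h3.1, h1.1, h3.2] at h6
    simpa using h6
  have h7 : (θ (e2 c)).1.2.1 = (θ (e3 c)).1.2.2 := by
    have h6 : (θ (e1 c)).1.2.1 + (θ (e2 c)).1.2.1 + (θ (e3 c)).1.2.1 =
      (θ (e1 c)).1.2.2 + (θ (e2 c)).1.2.2 + (θ (e3 c)).1.2.2 := h4.2
    rw [h1.1, h3.2, h1.2.1, h2.2.1] at h6
    simpa using h6
  have h8 : ∀ n, ∃ m : ℤ, (θ (e1 c)).1.1 n = m := by
    intro n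
    refine Zl.integer fun p hp => ?_
    by_cases hp2 : p = 2
    · subst hp2
      rw [h5]
      exact h2.2.2 2 hp (by norm_num) n
    · exact h1.2.2 p hp hp2 n
  choose m hm using h8
  have hm0 : ∀ n, m n ≠ 0 → n ∈ (θ (e1 c)).1.1.support := by
    intro n hn
    rw [Finsupp.mem_support_iff, hm]
    exact_mod_cast hn
  let c' : ℕ →₀ ℤ := Finsupp.onFinset (θ (e1 c)).1.1.support m hm0
  have hc : io c' = (θ (e1 c)).1.1 := by
    ext n
    rw [io_apply, hm]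
    rfl
  refine ⟨c', ?_, ?_, ?_⟩
  · apply Subtype.ext
    rw [e1_val, hc]
    exact Prod.ext rfl (Prod.ext h1.1 h1.2.1)
  · apply Subtype.ext
    rw [e2_val, hc, h5]
    exact Prod.ext h2.1 (Prod.ext rfl h2.2.1)
  · apply Subtype.ext
    rw [e3_val, hc, h5, h7]
    exact Prod.ext h3.1 (Prod.ext h3.2 rfl)

theorem e1_inj {c c' : ℕ →₀ ℤ} (h : e1 c = e1 c') : c = c' := by
  have := congrArg (fun v : GA => v.1.1) h
  exact io_inj this

/-- A multiple is integral. -/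
theorem exists_mul (a : ℕ →₀ ℚ) : ∃ (N : ℕ) (c : ℕ →₀ ℤ), N ≠ 0 ∧ N • a = io c := by
  induction a using Finsupp.induction_linear with
  | zero => exact ⟨1, 0, one_ne_zero, by rw [map_zero, nsmul_zero]⟩
  | add f g hf hg =>
    obtain ⟨N, c, hN, h1⟩ := hf
    obtain ⟨M, d, hM, h2⟩ := hg
    refine ⟨N * M, M • c + N • d, mul_ne_zero hN hM, ?_⟩
    rw [map_add, map_nsmul, map_nsmul, ← h1, ← h2, nsmul_add, smul_smul, smul_smul, mul_comm M N]
  | single n q =>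
    refine ⟨q.den, Finsupp.single n q.num, q.den_ne_zero, ?_⟩
    ext m
    rw [Finsupp.smul_apply, io_apply, nsmul_eq_mul]
    by_cases h : m = n
    · subst h
      rw [Finsupp.single_eq_same, Finsupp.single_eq_same, mul_comm]
      exact Rat.mul_den_eq_num q
    · rw [Finsupp.single_eq_of_ne h, Finsupp.single_eq_of_ne h]
      simp

theorem exists_comb (v : GA) : ∃ (N : ℕ) (c d f : ℕ →₀ ℤ), N ≠ 0 ∧
    N • v = e1 c + e2 d + e3 f := by
  obtain ⟨N1, c, h1, h1'⟩ := exists_mul v.1.1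
  obtain ⟨N2, d, h2, h2'⟩ := exists_mul v.1.2.1
  obtain ⟨N3, f, h3, h3'⟩ := exists_mul v.1.2.2
  refine ⟨N1 * N2 * N3, (N2 * N3) • c, (N1 * N3) • d, (N1 * N2) • f,
    mul_ne_zero (mul_ne_zero h1 h2) h3, ?_⟩
  apply Subtype.ext
  show ((N1 * N2 * N3) • v.1.1, (N1 * N2 * N3) • v.1.2.1, (N1 * N2 * N3) • v.1.2.2) =
    (io ((N2 * N3) • c) + 0 + 0, 0 + io ((N1 * N3) • d) + 0, 0 + 0 + io ((N1 * N2) • f))
  rw [map_nsmul, map_nsmul, map_nsmul, ← h1', ← h2', ← h3', smul_smul, smul_smul, smul_smul]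
  simp only [add_zero, zero_add]
  refine Prod.ext ?_ (Prod.ext ?_ ?_)
  · show (N1 * N2 * N3) • v.1.1 = (N2 * N3 * N1) • v.1.1
    congr 1
    ring
  · show (N1 * N2 * N3) • v.1.2.1 = (N1 * N3 * N2) • v.1.2.1
    congr 1
    ring
  · rfl

theorem tf {N : ℕ} {v : GA} (hN : N ≠ 0) (h : N • v = 0) : v = 0 := by
  have key : ∀ a : ℕ →₀ ℚ, N • a = 0 → a = 0 := by
    intro a ha
    ext n
    have := DFunLike.congr_fun ha n
    rw [Finsupp.smul_apply, nsmul_eq_mul, Finsupp.zero_apply] at this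
    rcases mul_eq_zero.1 this with h | h
    · exact absurd (by exact_mod_cast h) hN
    · exact h
  apply Subtype.ext
  exact Prod.ext (key _ (congrArg (fun v : GA => v.1.1) h))
    (Prod.ext (key _ (congrArg (fun v : GA => v.1.2.1) h))
      (key _ (congrArg (fun v : GA => v.1.2.2) h)))

/-- Endomorphisms fixing the basis vectors are trivial. -/
theorem eq_id {θ : GA →+ GA} (h : ∀ n, θ (e1 (bs n)) = e1 (bs n)) (v : GA) : θ v = v := by
  have h1 : ∀ n, θ (e2 (bs n)) = e2 (bs n) ∧ θ (e3 (bs n)) = e3 (bs n) := by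
    intro n
    obtain ⟨c, h1, h2, h3⟩ := exists_th θ (bs n)
    rw [h n] at h1
    rw [← e1_inj h1] at h2 h3
    exact ⟨h2, h3⟩
  have ext' : ∀ f g : (ℕ →₀ ℤ) →+ GA, (∀ n, f (bs n) = g (bs n)) → ∀ c, f c = g c := by
    intro f g hfg c
    have : f = g := by
      refine Finsupp.addHom_ext' fun n => ?_
      refine AddMonoidHom.ext_int ?_
      exact hfg n
    rw [this]
  have k1 := ext' (θ.comp e1) e1 h
  have k2 := ext' (θ.comp e2) e2 fun n => (h1 n).1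
  have k3 := ext' (θ.comp e3) e3 fun n => (h1 n).2
  obtain ⟨N, c, d, f, hN, h2⟩ := exists_comb v
  have h3 : N • (θ v - v) = 0 := by
    rw [nsmul_sub, ← map_nsmul, h2, map_add, map_add]
    have k1' : θ (e1 c) = e1 c := k1 c
    have k2' : θ (e2 d) = e2 d := k2 d
    have k3' : θ (e3 f) = e3 f := k3 f
    rw [k1', k2', k3', sub_self]
  exact sub_eq_zero.1 (tf hN h3)

end Pool.Agent.Y566.ON
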