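import Pool.Agent.Y566.ON.Grp

set_option autoImplicit false

/-! Orderings of the group given by pairs of linear orders, and their rigidity. -/

namespace Pool.Agent.Y566.ON

/-- Positive elements. -/
def Pos (r₁ r₂ : ℕ → ℕ → Prop) (v : GA) : Prop :=
  LP r₂ v.1.2.2 ∨ (v.1.2.2 = 0 ∧
    (LP (fun a b => r₁ b a) v.1.2.1 ∨ (v.1.2.1 = 0 ∧ LP r₁ v.1.1)))

section

variable {r₁ r₂ r₁' r₂' : ℕ → ℕ → Prop}

theorem Pos.add (h1 : SL r₁) (h2 : SL r₂) {v w : GA} (hv : Pos r₁ r₂ v) (hw : Pos r₁ r₂ w) :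
    Pos r₁ r₂ (v + w) := by
  unfold Pos
  have a1 : (v + w).1.1 = v.1.1 + w.1.1 := rfl
  have a2 : (v + w).1.2.1 = v.1.2.1 + w.1.2.1 := rfl
  have a3 : (v + w).1.2.2 = v.1.2.2 + w.1.2.2 := rfl
  rw [a1, a2, a3]
  rcases hv with hv | ⟨v3, hv⟩
  · left
    rcases hw with hw | ⟨w3, hw⟩
    · exact hv.add h2 hw
    · rw [w3, add_zero]
      exact hv
  · rcases hw with hw | ⟨w3, hw⟩
    · left
      rw [v3, zero_add]
      exact hw
    · right
      refine ⟨by rw [v3, w3, add_zero], ?_⟩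
      rcases hv with hv | ⟨v2, hv⟩
      · left
        rcases hw with hw | ⟨w2, hw⟩
        · exact hv.add h1.rev hw
        · rw [w2, add_zero]
          exact hv
      · rcases hw with hw | ⟨w2, hw⟩
        · left
          rw [v2, zero_add]
          exact hw
        · right
          exact ⟨by rw [v2, w2, add_zero], hv.add h1 hw⟩

theorem not_Pos_zero : ¬ Pos r₁ r₂ 0 := by
  rintro (h | ⟨-, h | ⟨-, h⟩⟩)
  · exact not_LP_zero h
  · exact not_LP_zero h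
  · exact not_LP_zero h

theorem Pos.asymm (h1 : SL r₁) (h2 : SL r₂) {v : GA} (hv : Pos r₁ r₂ v) : ¬ Pos r₁ r₂ (-v) := by
  intro h
  have := hv.add h1 h2 h
  rw [add_neg_cancel] at this
  exact not_Pos_zero this

theorem Pos.total (h1 : SL r₁) (h2 : SL r₂) {v : GA} (hv : v ≠ 0) :
    Pos r₁ r₂ v ∨ Pos r₁ r₂ (-v) := by
  have a1 : (-v).1.1 = -v.1.1 := rfl
  have a2 : (-v).1.2.1 = -v.1.2.1 := rfl
  have a3 : (-v).1.2.2 = -v.1.2.2 := rfl
  unfold Pos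
  rw [a1, a2, a3]
  by_cases h3 : v.1.2.2 = 0
  · by_cases h4 : v.1.2.1 = 0
    · have h5 : v.1.1 ≠ 0 := by
        intro h5
        apply hv
        apply Subtype.ext
        exact Prod.ext h5 (Prod.ext h4 h3)
      rcases LP.total h1 h5 with h6 | h6
      · exact Or.inl (Or.inr ⟨h3, Or.inr ⟨h4, h6⟩⟩)
      · exact Or.inr (Or.inr ⟨by rw [h3, neg_zero], Or.inr ⟨by rw [h4, neg_zero], h6⟩⟩)
    · rcases LP.total h1.rev h4 with h6 | h6
      · exact Or.inl (Or.inr ⟨h3, Or.inl h6⟩)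
      · exact Or.inr (Or.inr ⟨by rw [h3, neg_zero], Or.inl h6⟩)
  · rcases LP.total h2 h3 with h6 | h6
    · exact Or.inl (Or.inl h6)
    · exact Or.inr (Or.inl h6)

theorem LP_io {r : ℕ → ℕ → Prop} {c : ℕ →₀ ℤ} : LP r (io c) ↔ LP r c := by
  constructor
  · rintro ⟨n, h1, h2⟩
    refine ⟨n, ?_, fun m hm => ?_⟩
    · rw [io_apply] at h1
      exact_mod_cast h1
    · have := h2 m hm
      rw [io_apply] at this
      exact_mod_cast this
  · rintro ⟨n, h1, h2⟩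
    refine ⟨n, ?_, fun m hm => ?_⟩
    · rw [io_apply]
      exact_mod_cast h1
    · rw [io_apply, h2 m hm]
      rfl

theorem Pos_e1 {c : ℕ →₀ ℤ} : Pos r₁ r₂ (e1 c) ↔ LP r₁ c := by
  unfold Pos
  rw [e1_val]
  constructor
  · rintro (h | ⟨-, h | ⟨-, h⟩⟩)
    · exact absurd h not_LP_zero
    · exact absurd h not_LP_zero
    · exact LP_io.1 h
  · intro h
    exact Or.inr ⟨rfl, Or.inr ⟨rfl, LP_io.2 h⟩⟩

theorem Pos_e2 {c : ℕ →₀ ℤ} : Pos r₁ r₂ (e2 c) ↔ LP (fun a b => r₁ b a) c := by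
  unfold Pos
  rw [e2_val]
  constructor
  · rintro (h | ⟨-, h | ⟨-, h⟩⟩)
    · exact absurd h not_LP_zero
    · exact LP_io.1 h
    · exact absurd h not_LP_zero
  · intro h
    exact Or.inr ⟨rfl, Or.inl (LP_io.2 h)⟩

theorem Pos_e3 {c : ℕ →₀ ℤ} : Pos r₁ r₂ (e3 c) ↔ LP r₂ c := by
  unfold Pos
  rw [e3_val]
  constructor
  · rintro (h | ⟨-, h | ⟨-, h⟩⟩)
    · exact LP_io.1 h
    · exact absurd h not_LP_zero
    · exact absurd h not_LP_zero
  · intro h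
    exact Or.inl (LP_io.2 h)

theorem rig_aux (h1' : SL r₁') {f g : (ℕ →₀ ℤ) → (ℕ →₀ ℤ)}
    (hfa : ∀ a b, f (a + b) = f a + f b)
    (hfg : ∀ c, f (g c) = c) (hfi : ∀ a b, f a = f b → a = b)
    (hPP : ∀ c, PP r₁ c ↔ PP r₁' (f c)) (h1 : SL r₁) (n : ℕ) : ∃ k, f (bs n) = bs k := by
  refine bs_of_ind h1' ⟨(hPP _).1 (PP_bs h1 n), fun u w hu hw h => ?_⟩
  refine (ind_bs h1 n).2 (g u) (g w) ((hPP _).2 (by rw [hfg]; exact hu))
    ((hPP _).2 (by rw [hfg]; exact hw)) (hfi _ _ ?_)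
  rw [hfa, hfg, hfg]
  exact h

/-- **Rigidity**: isomorphisms of the orderings come from permutations. -/
theorem rig (h1 : SL r₁) (h2 : SL r₂) (h1' : SL r₁') (h2' : SL r₂') (θ : GA ≃+ GA)
    (hθ : ∀ v, Pos r₁ r₂ v ↔ Pos r₁' r₂' (θ v)) :
    ∃ σ : Equiv.Perm ℕ, (∀ n, θ (e1 (bs n)) = e1 (bs (σ n))) ∧
      (∀ m n, r₁ m n ↔ r₁' (σ m) (σ n)) ∧ ∀ m n, r₂ m n ↔ r₂' (σ m) (σ n) := by
  choose f hf1 hf2 hf3 using exists_th θ.toAddMonoidHom
  choose g hg1 hg2 hg3 using exists_th θ.symm.toAddMonoidHom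
  replace hf1 : ∀ c, θ (e1 c) = e1 (f c) := hf1
  replace hf2 : ∀ c, θ (e2 c) = e2 (f c) := hf2
  replace hf3 : ∀ c, θ (e3 c) = e3 (f c) := hf3
  replace hg1 : ∀ c, θ.symm (e1 c) = e1 (g c) := hg1
  replace hg2 : ∀ c, θ.symm (e2 c) = e2 (g c) := hg2
  have hfg : ∀ c, f (g c) = c := fun c => e1_inj (by rw [← hf1, ← hg1, θ.apply_symm_apply])
  have hgf : ∀ c, g (f c) = c := fun c => e1_inj (by rw [← hg1, ← hf1, θ.symm_apply_apply])
  have hfi : ∀ a b, f a = f b → a = b := fun a b h => by rw [← hgf a, h, hgf]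
  have hgi : ∀ a b, g a = g b → a = b := fun a b h => by rw [← hfg a, h, hfg]
  have hfa : ∀ a b, f (a + b) = f a + f b := fun a b => e1_inj (by
    rw [← hf1, map_add, map_add, map_add, hf1, hf1])
  have hga : ∀ a b, g (a + b) = g a + g b := fun a b => e1_inj (by
    rw [← hg1, map_add, map_add, map_add, hg1, hg1])
  have hL1 : ∀ c, LP r₁ c ↔ LP r₁' (f c) := fun c => by
    rw [← Pos_e1 (r₁ := r₁) (r₂ := r₂), hθ, hf1, Pos_e1]
  have hL2 : ∀ c, LP (fun a b => r₁ b a) c ↔ LP (fun a b => r₁' b a) (f c) := fun c => by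
    rw [← Pos_e2 (r₁ := r₁) (r₂ := r₂), hθ, hf2, Pos_e2]
  have hL3 : ∀ c, LP r₂ c ↔ LP r₂' (f c) := fun c => by
    rw [← Pos_e3 (r₁ := r₁) (r₂ := r₂), hθ, hf3, Pos_e3]
  have hPP : ∀ c, PP r₁ c ↔ PP r₁' (f c) := fun c => and_congr (hL1 c) (hL2 c)
  have hPP' : ∀ c, PP r₁' c ↔ PP r₁ (g c) := fun c => by
    rw [hPP, hfg]
  have hk := rig_aux h1' hfa hfg hfi hPP h1
  have hl := rig_aux h1 hga hgf hgi hPP' h1'
  choose k hk using hk
  choose l hl using hl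
  have hlk : ∀ n, l (k n) = n := fun n => bs_inj (by rw [← hl, ← hk, hgf])
  have hkl : ∀ n, k (l n) = n := fun n => bs_inj (by rw [← hk, ← hl, hfg])
  have hfs : ∀ a b, f (a - b) = f a - f b := fun a b => by
    rw [eq_sub_iff_add_eq, ← hfa, sub_add_cancel]
  have key : ∀ {r r' : ℕ → ℕ → Prop}, SL r → SL r' → (∀ c, LP r c ↔ LP r' (f c)) →
      ∀ m n, r m n ↔ r' (k m) (k n) := by
    intro r r' hr hr' h m n
    by_cases hmn : m = n
    · subst hmn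
      exact iff_of_false (hr.irrefl _) (hr'.irrefl _)
    · have hkmn : k m ≠ k n := fun h => hmn (by rw [← hlk m, h, hlk])
      rw [← LP_bs_sub hr hmn, h, hfs, hk, hk, LP_bs_sub hr' hkmn]
  exact ⟨⟨k, l, hlk, hkl⟩, fun n => by rw [hf1, hk]; rfl, key h1 h1' hL1, key h2 h2' hL3⟩

end

section perm

/-- Permutations act on the group. -/
noncomputable def pm (σ : Equiv.Perm ℕ) : GA ≃+ GA where
  toFun v := ⟨(Finsupp.domCongr σ v.1.1, Finsupp.domCongr σ v.1.2.1, Finsupp.domCongr σ v.1.2.2),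
    fun n => v.2 (σ.symm n)⟩
  invFun v := ⟨(Finsupp.domCongr σ.symm v.1.1, Finsupp.domCongr σ.symm v.1.2.1,
    Finsupp.domCongr σ.symm v.1.2.2), fun n => v.2 (σ.symm.symm n)⟩
  left_inv v := by
    apply Subtype.ext
    refine Prod.ext ?_ (Prod.ext ?_ ?_)
    all_goals
      ext n
      simp
  right_inv v := by
    apply Subtype.ext
    refine Prod.ext ?_ (Prod.ext ?_ ?_)
    all_goals
      ext n
      simp
  map_add' v w := by
    apply Subtype.ext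
    refine Prod.ext ?_ (Prod.ext ?_ ?_)
    · exact map_add (Finsupp.domCongr σ) _ _
    · exact map_add (Finsupp.domCongr σ) _ _
    · exact map_add (Finsupp.domCongr σ) _ _

variable {σ : Equiv.Perm ℕ} {r₁ r₂ r₁' r₂' : ℕ → ℕ → Prop}

theorem dc_apply (σ : Equiv.Perm ℕ) (a : ℕ →₀ ℚ) (n : ℕ) :
    Finsupp.domCongr σ a n = a (σ.symm n) := by simp

theorem LP_dc {r r' : ℕ → ℕ → Prop} (h : ∀ m n, r m n ↔ r' (σ m) (σ n)) (a : ℕ →₀ ℚ) :
    LP r a ↔ LP r' (Finsupp.domCongr σ a) := by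
  constructor
  · rintro ⟨n, h1, h2⟩
    refine ⟨σ n, ?_, fun m hm => ?_⟩
    · rw [dc_apply, σ.symm_apply_apply]
      exact h1
    · rw [dc_apply]
      apply h2
      rw [h, σ.apply_symm_apply]
      exact hm
  · rintro ⟨n, h1, h2⟩
    rw [dc_apply] at h1
    refine ⟨σ.symm n, h1, fun m hm => ?_⟩
    rw [h, σ.apply_symm_apply] at hm
    have := h2 _ hm
    rwa [dc_apply, σ.symm_apply_apply] at this

theorem dc_eq_zero (a : ℕ →₀ ℚ) : Finsupp.domCongr σ a = 0 ↔ a = 0 :=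
  map_eq_zero_iff _ (Finsupp.domCongr σ).injective

theorem Pos_pm (h1 : ∀ m n, r₁ m n ↔ r₁' (σ m) (σ n)) (h2 : ∀ m n, r₂ m n ↔ r₂' (σ m) (σ n))
    (v : GA) : Pos r₁ r₂ v ↔ Pos r₁' r₂' (pm σ v) := by
  have a1 : (pm σ v).1.1 = Finsupp.domCongr σ v.1.1 := rfl
  have a2 : (pm σ v).1.2.1 = Finsupp.domCongr σ v.1.2.1 := rfl
  have a3 : (pm σ v).1.2.2 = Finsupp.domCongr σ v.1.2.2 := rfl
  unfold Pos
  rw [a1, a2, a3, dc_eq_zero, dc_eq_zero, ← LP_dc h1, ← LP_dc h2]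
  have := LP_dc (r := fun a b => r₁ b a) (r' := fun a b => r₁' b a) (σ := σ)
    (fun m n => h1 n m) v.1.2.1
  rw [← this]

theorem pm_e1 (n : ℕ) : pm σ (e1 (bs n)) = e1 (bs (σ n)) := by
  apply Subtype.ext
  refine Prod.ext ?_ (Prod.ext ?_ ?_)
  · show Finsupp.domCongr σ (io (bs n)) = io (bs (σ n))
    ext m
    rw [dc_apply, io_apply, io_apply]
    by_cases h : m = σ n
    · rw [h, σ.symm_apply_apply, bs_self, bs_self]
    · rw [bs_ne h, bs_ne (fun h' => h (by rw [← h', σ.apply_symm_apply]))]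
  · exact (dc_eq_zero 0).2 rfl
  · exact (dc_eq_zero 0).2 rfl

end perm

end Pool.Agent.Y566.ON
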