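import Pool.Agent.Y566.ON.Rig
import Pool.Agent.W889.VC.Fin

set_option autoImplicit false

/-! Copies of the ordered groups, and decoding. -/

namespace Pool.Agent.Y566.ON

open Pool.Agent.W889.VC (PairStr PIso TwoLin BP SLO bp_fst bp_snd bp_slo)

/-- Structures with an order and an addition. -/
abbrev XO : Type := (ℕ → ℕ → Bool) × (ℕ → ℕ → ℕ)

/-- Isomorphism. -/
def OI (x y : XO) : Prop := ∃ σ : Equiv.Perm ℕ,
  (∀ m n, y.1 (σ m) (σ n) = x.1 m n) ∧ ∀ m n, y.2 (σ m) (σ n) = σ (x.2 m n)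

/-- The first order. -/
def R1 (S : PairStr) (m n : ℕ) : Prop := S.1 m n = true

/-- The second order. -/
def R2 (S : PairStr) (m n : ℕ) : Prop := S.2 m n = true

theorem slo_iff {r : ℕ → ℕ → Prop} : SL r ↔ SLO r :=
  ⟨fun h => ⟨h.1, h.2, h.3⟩, fun h => ⟨h.1, h.2, h.3⟩⟩

/-- The structure `x` is a copy, through `c`, of the group ordered by `S`. -/
structure Ph0 (x : XO) (c : ℕ → GA) (S : PairStr) : Prop where
  inj : ∀ m k, c m = c k → m = k
  surj : ∀ v, ∃ m, c m = v
  add : ∀ m k, c (x.2 m k) = c m + c k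
  s1 : SL (R1 S)
  s2 : SL (R2 S)
  ord : ∀ m k, x.1 m k = true ↔ Pos (R1 S) (R2 S) (c k - c m)

/-- The basis elements are numbered increasingly. -/
def Inc (c : ℕ → GA) : Prop := ∀ n a b, c a = e1 (bs n) → c b = e1 (bs (n + 1)) → a < b

/-- The bijection. -/
noncomputable def Ph0.E {x : XO} {c : ℕ → GA} {S : PairStr} (h : Ph0 x c S) : ℕ ≃ GA :=
  Equiv.ofBijective c ⟨fun m k => h.inj m k, h.surj⟩

theorem Ph0.E_apply {x : XO} {c : ℕ → GA} {S : PairStr} (h : Ph0 x c S) (m : ℕ) :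
    h.E m = c m := rfl

theorem Ph0.c_symm {x : XO} {c : ℕ → GA} {S : PairStr} (h : Ph0 x c S) (v : GA) :
    c (h.E.symm v) = v := h.E.apply_symm_apply v

theorem Ph0.symm_c {x : XO} {c : ℕ → GA} {S : PairStr} (h : Ph0 x c S) (m : ℕ) :
    h.E.symm (c m) = m := h.E.symm_apply_apply m

/-- The map of groups given by an isomorphism of copies. -/
theorem exists_theta {x y : XO} {c c' : ℕ → GA} {S S' : PairStr} (h : Ph0 x c S)
    (h' : Ph0 y c' S') (τ : Equiv.Perm ℕ) (h1 : ∀ m n, y.1 (τ m) (τ n) = x.1 m n)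
    (h2 : ∀ m n, y.2 (τ m) (τ n) = τ (x.2 m n)) :
    ∃ θ : GA ≃+ GA, (∀ m, θ (c m) = c' (τ m)) ∧
      ∀ v, Pos (R1 S) (R2 S) v ↔ Pos (R1 S') (R2 S') (θ v) := by
  have hadd : ∀ v w, h.E.symm (v + w) = x.2 (h.E.symm v) (h.E.symm w) := by
    intro v w
    rw [Equiv.symm_apply_eq, h.E_apply, h.add, h.c_symm, h.c_symm]
  let θ : GA ≃+ GA :=
    { toEquiv := (h.E.symm.trans τ).trans h'.E
      map_add' := by
        intro v w
        show c' (τ (h.E.symm (v + w))) = c' (τ (h.E.symm v)) + c' (τ (h.E.symm w))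
        rw [hadd, ← h2, h'.add] }
  have hθ : ∀ m, θ (c m) = c' (τ m) := by
    intro m
    show c' (τ (h.E.symm (c m))) = c' (τ m)
    rw [h.symm_c]
  refine ⟨θ, hθ, fun v => ?_⟩
  have e1 : v = c (h.E.symm v) - c (h.E.symm 0) := by rw [h.c_symm, h.c_symm, sub_zero]
  have e2 : θ v = c' (τ (h.E.symm v)) - c' (τ (h.E.symm 0)) := by
    conv_lhs => rw [e1]
    rw [map_sub, hθ, hθ]
  rw [e2, ← h'.ord, h1, h.ord, ← e1]

theorem Ph0.iso_iff {x y : XO} {c c' : ℕ → GA} {S S' : PairStr} (h : Ph0 x c S)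
    (h' : Ph0 y c' S') : OI x y ↔ PIso S S' := by
  constructor
  · rintro ⟨τ, h1, h2⟩
    obtain ⟨θ, h3, h4⟩ := exists_theta h h' τ h1 h2
    obtain ⟨σ, -, h5, h6⟩ := rig h.s1 h.s2 h'.s1 h'.s2 θ h4
    exact ⟨σ, fun m n => ⟨Bool.eq_iff_iff.2 (h5 m n).symm, Bool.eq_iff_iff.2 (h6 m n).symm⟩⟩
  · rintro ⟨σ, hσ⟩
    have h1 : ∀ m n, R1 S m n ↔ R1 S' (σ m) (σ n) := fun m n => by
      unfold R1
      rw [(hσ m n).1]
    have h2 : ∀ m n, R2 S m n ↔ R2 S' (σ m) (σ n) := fun m n => by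
      unfold R2
      rw [(hσ m n).2]
    have hc : ∀ m, c' (h'.E.symm (pm σ (h.E m))) = pm σ (c m) := fun m => h'.c_symm _
    refine ⟨(h.E.trans (pm σ).toEquiv).trans h'.E.symm, fun m n => ?_, fun m n => ?_⟩
    · show y.1 (h'.E.symm (pm σ (h.E m))) (h'.E.symm (pm σ (h.E n))) = x.1 m n
      refine Bool.eq_iff_iff.2 ?_
      rw [h'.ord, h.ord, hc, hc, ← map_sub, ← Pos_pm h1 h2]
    · show y.2 (h'.E.symm (pm σ (h.E m))) (h'.E.symm (pm σ (h.E n))) =
        h'.E.symm (pm σ (h.E (x.2 m n)))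
      apply h'.inj
      rw [h'.add, hc, hc, hc, ← map_add, h.add]

/-- Increasing permutations are trivial. -/
theorem perm_id {σ : Equiv.Perm ℕ} (h : StrictMono σ) (n : ℕ) : σ n = n := by
  have h1 : StrictMono σ.symm := by
    intro a b hab
    by_contra hc
    have := h.monotone (not_lt.1 hc)
    rw [σ.apply_symm_apply, σ.apply_symm_apply] at this
    omega
  have h2 := h.id_le n
  have h3 := h1.id_le (σ n)
  simp only [id_eq, σ.symm_apply_apply] at h2 h3
  omega

theorem Ph0.uniq {x : XO} {c c' : ℕ → GA} {S S' : PairStr} (h : Ph0 x c S) (h' : Ph0 x c' S')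
    (hi : Inc c) (hi' : Inc c') : c = c' ∧ S = S' := by
  obtain ⟨θ, h3, h4⟩ := exists_theta h h' 1 (fun _ _ => rfl) (fun _ _ => rfl)
  obtain ⟨σ, h5, h6, h7⟩ := rig h.s1 h.s2 h'.s1 h'.s2 θ h4
  have m1 : StrictMono fun n => h.E.symm (e1 (bs n)) :=
    strictMono_nat_of_lt_succ fun n => hi n _ _ (h.c_symm _) (h.c_symm _)
  have m2 : StrictMono fun n => h'.E.symm (e1 (bs n)) :=
    strictMono_nat_of_lt_succ fun n => hi' n _ _ (h'.c_symm _) (h'.c_symm _)
  have h8 : ∀ n, h.E.symm (e1 (bs n)) = h'.E.symm (e1 (bs (σ n))) := by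
    intro n
    apply h'.inj
    rw [h'.c_symm, ← h5]
    have := h3 (h.E.symm (e1 (bs n)))
    rw [h.c_symm] at this
    exact this.symm
  have hσ : StrictMono σ := by
    intro a b hab
    have h9 := m1 hab
    simp only [h8] at h9
    exact m2.lt_iff_lt.1 h9
  have hid : ∀ n, σ n = n := perm_id hσ
  have hθ : ∀ v, θ v = v := fun v => eq_id (θ := θ.toAddMonoidHom) (fun n => by
    show θ (e1 (bs n)) = e1 (bs n)
    rw [h5, hid]) v
  refine ⟨?_, ?_⟩
  · funext m
    have := h3 m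
    rw [hθ] at this
    exact this
  · refine Prod.ext ?_ ?_
    · funext m n
      have := h6 m n
      rw [hid, hid] at this
      exact Bool.eq_iff_iff.2 this
    · funext m n
      have := h7 m n
      rw [hid, hid] at this
      exact Bool.eq_iff_iff.2 this

theorem Ph0.norm {x : XO} {c : ℕ → GA} {S : PairStr} (h : Ph0 x c S) :
    ∃ (c' : ℕ → GA) (S' : PairStr), Ph0 x c' S' ∧ Inc c' := by
  classical
  let pt : ℕ → ℕ := fun n => h.E.symm (e1 (bs n))
  have hpt : Function.Injective pt := fun a b hab => bs_inj (e1_inj (h.E.symm.injective hab))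
  haveI : Infinite (Set.range pt) := Set.infinite_coe_iff.2 (Set.infinite_range_of_injective hpt)
  let od : ℕ ≃o Set.range pt := Nat.Subtype.orderIsoOfNat (Set.range pt)
  let σ : Equiv.Perm ℕ := (Equiv.ofInjective pt hpt).trans od.symm.toEquiv
  have hσ : ∀ n, ((od n : Set.range pt) : ℕ) = pt (σ.symm n) := by
    intro n
    have h1 : od (σ (σ.symm n)) = (Equiv.ofInjective pt hpt) (σ.symm n) := by
      show od (od.symm _) = _
      rw [od.apply_symm_apply]
    rw [σ.apply_symm_apply] at h1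
    rw [h1]
    rfl
  refine ⟨fun m => pm σ (c m), (fun m n => S.1 (σ.symm m) (σ.symm n),
    fun m n => S.2 (σ.symm m) (σ.symm n)), ⟨?_, ?_, ?_, ?_, ?_, ?_⟩, ?_⟩
  · intro m k hmk
    exact h.inj m k ((pm σ).injective hmk)
  · intro v
    obtain ⟨m, hm⟩ := h.surj ((pm σ).symm v)
    exact ⟨m, by
      show pm σ (c m) = v
      rw [hm, AddEquiv.apply_symm_apply]⟩
  · intro m k
    show pm σ (c (x.2 m k)) = _
    rw [h.add, map_add]
  · exact ⟨fun m => h.s1.irrefl _, fun a b d => h.s1.trans _ _ _,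
      fun a b hab => h.s1.total _ _ fun he => hab (σ.symm.injective he)⟩
  · exact ⟨fun m => h.s2.irrefl _, fun a b d => h.s2.trans _ _ _,
      fun a b hab => h.s2.total _ _ fun he => hab (σ.symm.injective he)⟩
  · intro m k
    rw [h.ord, ← map_sub]
    refine Pos_pm (σ := σ) (fun m n => ?_) (fun m n => ?_) _
    · show _ ↔ S.1 (σ.symm (σ m)) (σ.symm (σ n)) = true
      rw [σ.symm_apply_apply, σ.symm_apply_apply]
      rfl
    · show _ ↔ S.2 (σ.symm (σ m)) (σ.symm (σ n)) = true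
      rw [σ.symm_apply_apply, σ.symm_apply_apply]
      rfl
  · have key : ∀ n a, pm σ (c a) = e1 (bs n) → a = od n := by
      intro n a ha
      rw [hσ]
      have h1 : pm σ (c a) = pm σ (e1 (bs (σ.symm n))) := by
        rw [ha, pm_e1, σ.apply_symm_apply]
      have h2 := (pm σ).injective h1
      show a = h.E.symm (e1 (bs (σ.symm n)))
      rw [← h2, h.symm_c]
    intro n a b ha hb
    rw [key n a ha, key (n + 1) b hb]
    exact od.strictMono (Nat.lt_succ_self n)

/-! ### measurability -/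

instance (priority := high) GA.ms : MeasurableSpace GA := ⊤

instance GA.dms : DiscreteMeasurableSpace GA := ⟨fun _ => trivial⟩

instance GA.ct : Countable GA := Subtype.countable

/-- Decorated structures. -/
abbrev TO : Type := XO × (ℕ → GA) × PairStr

theorem bp_LP {Y : Type} [MeasurableSpace Y] {r : ℕ → ℕ → Y → Prop} (h : ∀ u v, BP (r u v))
    (a : ℕ →₀ ℚ) : BP (fun y => LP (fun u v => r u v y) a) := by
  unfold LP
  exact BP.ex fun n => (BP.const _).and (BP.all fun m => (h n m).imp (BP.const _))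

theorem bp_Pos {Y : Type} [MeasurableSpace Y] {r s : ℕ → ℕ → Y → Prop} (h : ∀ u v, BP (r u v))
    (h' : ∀ u v, BP (s u v)) (v : GA) :
    BP (fun y => Pos (fun u v => r u v y) (fun u v => s u v y) v) := by
  unfold Pos
  exact (bp_LP h' _).or ((BP.const _).and ((bp_LP (fun u v => h v u) _).or
    ((BP.const _).and (bp_LP h _))))

theorem bp_R1 (m n : ℕ) : BP fun w : TO => R1 w.2.2 m n :=
  (measurable_snd.comp measurable_snd) (bp_fst m n)

theorem bp_R2 (m n : ℕ) : BP fun w : TO => R2 w.2.2 m n :=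
  (measurable_snd.comp measurable_snd) (bp_snd m n)

theorem bp_c (m : ℕ) (v : GA) : BP fun w : TO => w.2.1 m = v := by
  have h : Measurable fun w : TO => w.2.1 m :=
    (measurable_pi_apply m).comp (measurable_fst.comp measurable_snd)
  exact h (measurableSet_singleton v)

theorem bp_x1 (m n : ℕ) : BP fun w : TO => w.1.1 m n = true := by
  have h : Measurable fun w : TO => w.1.1 m n :=
    (measurable_pi_apply n).comp ((measurable_pi_apply m).comp (measurable_fst.comp measurable_fst))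
  exact h (measurableSet_singleton true)

theorem bp_x2 (m n k : ℕ) : BP fun w : TO => w.1.2 m n = k := by
  have h : Measurable fun w : TO => w.1.2 m n :=
    (measurable_pi_apply n).comp ((measurable_pi_apply m).comp (measurable_snd.comp measurable_fst))
  exact h (measurableSet_singleton k)

theorem bp_Ph : BP fun w : TO => Ph0 w.1 w.2.1 w.2.2 ∧ Inc w.2.1 := by
  have h1 : BP fun w : TO => ∀ (m k : ℕ) (v : GA), m ≠ k → w.2.1 m = v → ¬ w.2.1 k = v :=
    BP.all fun m => BP.all fun k => BP.all fun v => (BP.const _).imp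
      ((bp_c m v).imp (bp_c k v).not)
  have h2 : BP fun w : TO => ∀ v : GA, ∃ m, w.2.1 m = v := BP.all fun v => BP.ex fun m => bp_c m v
  have h3 : BP fun w : TO => ∀ (m k l : ℕ) (v u : GA), w.1.2 m k = l → w.2.1 m = v →
      w.2.1 k = u → w.2.1 l = v + u :=
    BP.all fun m => BP.all fun k => BP.all fun l => BP.all fun v => BP.all fun u =>
      (bp_x2 m k l).imp ((bp_c m v).imp ((bp_c k u).imp (bp_c l _)))
  have h4 : BP fun w : TO => SLO (fun m n => R1 w.2.2 m n) := bp_slo bp_R1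
  have h5 : BP fun w : TO => SLO (fun m n => R2 w.2.2 m n) := bp_slo bp_R2
  have h6 : BP fun w : TO => ∀ (m k : ℕ) (v u : GA), w.2.1 m = v → w.2.1 k = u →
      (w.1.1 m k = true ↔ Pos (fun m n => R1 w.2.2 m n) (fun m n => R2 w.2.2 m n) (u - v)) :=
    BP.all fun m => BP.all fun k => BP.all fun v => BP.all fun u =>
      (bp_c m v).imp ((bp_c k u).imp ((bp_x1 m k).iff (bp_Pos bp_R1 bp_R2 _)))
  have h7 : BP fun w : TO => ∀ n a b : ℕ, w.2.1 a = e1 (bs n) → w.2.1 b = e1 (bs (n + 1)) →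
      a < b :=
    BP.all fun n => BP.all fun a => BP.all fun b => (bp_c a _).imp ((bp_c b _).imp (BP.const _))
  refine ((h1.and (h2.and (h3.and (h4.and (h5.and (h6.and h7))))))).congr fun w => ?_
  constructor
  · rintro ⟨a1, a2, a3, a4, a5, a6, a7⟩
    refine ⟨⟨?_, a2, ?_, slo_iff.2 a4, slo_iff.2 a5, ?_⟩, a7⟩
    · intro m k hmk
      by_contra hne
      exact a1 m k _ hne rfl hmk.symm
    · intro m k
      exact a3 m k _ _ _ rfl rfl rfl
    · intro m k
      exact a6 m k _ _ rfl rfl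
  · rintro ⟨a, a7⟩
    refine ⟨?_, a.surj, ?_, slo_iff.1 a.s1, slo_iff.1 a.s2, ?_, a7⟩
    · rintro m k v hne h8 h9
      exact hne (a.inj m k (h8.trans h9.symm))
    · rintro m k l v u rfl rfl rfl
      exact a.add m k
    · rintro m k v u rfl rfl
      exact a.ord m k

/-- The coded structures. -/
def UU : Set XO := {x | ∃ c S, Ph0 x c S}

theorem UU_eq : UU = Prod.fst '' {w : TO | Ph0 w.1 w.2.1 w.2.2 ∧ Inc w.2.1} := by
  ext x
  constructor
  · rintro ⟨c, S, h⟩
    obtain ⟨c', S', h', hi⟩ := h.norm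
    exact ⟨(x, c', S'), ⟨h', hi⟩, rfl⟩
  · rintro ⟨⟨x', c, S⟩, ⟨h, -⟩, rfl⟩
    exact ⟨c, S, h⟩

theorem inj_fst {w w' : TO} (h : Ph0 w.1 w.2.1 w.2.2 ∧ Inc w.2.1)
    (h' : Ph0 w'.1 w'.2.1 w'.2.2 ∧ Inc w'.2.1) (he : w.1 = w'.1) : w = w' := by
  obtain ⟨x, c, S⟩ := w
  obtain ⟨x', c', S'⟩ := w'
  have he' : x = x' := he
  subst he'
  obtain ⟨rfl, rfl⟩ := Ph0.uniq h.1 h'.1 h.2 h'.2
  rfl

theorem UU_meas : MeasurableSet UU := by
  rw [UU_eq]
  exact MeasurableSet.image_of_measurable_injOn bp_Ph measurable_fst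
    (fun w hw w' hw' h => inj_fst hw hw' h)

/-- The decoding. -/
theorem exists_dec : ∃ D : XO → PairStr, Measurable D ∧ ∀ x ∈ UU, ∃ c, Ph0 x c (D x) := by
  have hsb : StandardBorelSpace {w : TO // Ph0 w.1 w.2.1 w.2.2 ∧ Inc w.2.1} :=
    MeasurableSet.standardBorel bp_Ph
  have hem : MeasurableEmbedding
      (fun w : {w : TO // Ph0 w.1 w.2.1 w.2.2 ∧ Inc w.2.1} => w.1.1) :=
    Measurable.measurableEmbedding (measurable_fst.comp measurable_subtype_coe)
      (fun w w' h => Subtype.ext (inj_fst w.2 w'.2 h))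
  obtain ⟨D, hD, hD'⟩ := hem.exists_measurable_extend
    (g := fun w : {w : TO // Ph0 w.1 w.2.1 w.2.2 ∧ Inc w.2.1} => w.1.2.2)
    ((measurable_snd.comp measurable_snd).comp measurable_subtype_coe)
    (fun _ => ⟨(fun _ _ => false, fun _ _ => false)⟩)
  refine ⟨D, hD, fun x hx => ?_⟩
  obtain ⟨c, S, h⟩ := hx
  obtain ⟨c', S', h', hi⟩ := h.norm
  refine ⟨c', ?_⟩
  have h1 : D x = S' := congrFun hD' ⟨(x, c', S'), h', hi⟩
  rw [h1]
  exact h'

theorem OI.symm {x y : XO} (h : OI x y) : OI y x := by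
  obtain ⟨σ, h1, h2⟩ := h
  refine ⟨σ.symm, fun m n => ?_, fun m n => ?_⟩
  · have := h1 (σ.symm m) (σ.symm n)
    rw [σ.apply_symm_apply, σ.apply_symm_apply] at this
    exact this.symm
  · have := h2 (σ.symm m) (σ.symm n)
    rw [σ.apply_symm_apply, σ.apply_symm_apply] at this
    rw [this, σ.symm_apply_apply]

theorem UU_inv {x y : XO} (h : OI x y) (hx : x ∈ UU) : y ∈ UU := by
  obtain ⟨c, S, hc⟩ := hx
  obtain ⟨σ, h1, h2⟩ := h.symm
  refine ⟨fun m => c (σ m), S, ?_, ?_, ?_, hc.s1, hc.s2, ?_⟩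
  · intro m k hmk
    exact σ.injective (hc.inj _ _ hmk)
  · intro v
    obtain ⟨m, hm⟩ := hc.surj v
    exact ⟨σ.symm m, by
      show c (σ (σ.symm m)) = v
      rw [σ.apply_symm_apply, hm]⟩
  · intro m k
    show c (σ (y.2 m k)) = c (σ m) + c (σ k)
    rw [← h2, hc.add]
  · intro m k
    rw [← h1, hc.ord]

theorem exists_coded {S : PairStr} (hS : TwoLin S) : ∃ x c, Ph0 x c S := by
  classical
  haveI : Infinite GA := Infinite.of_injective (fun n => e1 (bs n))
    (fun a b hab => bs_inj (e1_inj hab))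
  obtain ⟨c⟩ : Nonempty (ℕ ≃ GA) := nonempty_equiv_of_countable
  refine ⟨(fun m k => decide (Pos (R1 S) (R2 S) (c k - c m)), fun m k => c.symm (c m + c k)), c,
    fun m k h => c.injective h, fun v => ⟨c.symm v, c.apply_symm_apply v⟩, fun m k => ?_,
    slo_iff.2 hS.1, slo_iff.2 hS.2, fun m k => ?_⟩
  · exact c.apply_symm_apply _
  · show decide _ = true ↔ _
    rw [decide_eq_true_iff]

/-- The linear order on the group. -/
@[reducible] noncomputable def lo {r₁ r₂ : ℕ → ℕ → Prop} (h1 : SL r₁) (h2 : SL r₂) :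
    LinearOrder GA where
  le v w := v = w ∨ Pos r₁ r₂ (w - v)
  lt v w := Pos r₁ r₂ (w - v)
  le_refl v := Or.inl rfl
  le_trans u v w := by
    rintro (rfl | h) (rfl | h')
    · exact Or.inl rfl
    · exact Or.inr h'
    · exact Or.inr h
    · right
      have := h.add h1 h2 h'
      rwa [show v - u + (w - v) = w - u by abel] at this
  lt_iff_le_not_ge v w := by
    constructor
    · intro h
      refine ⟨Or.inr h, ?_⟩
      rintro (rfl | h')
      · rw [sub_self] at h
        exact not_Pos_zero h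
      · exact h.asymm h1 h2 (by rwa [neg_sub])
    · rintro ⟨rfl | h, h'⟩
      · exact absurd (Or.inl rfl) h'
      · exact h
  le_antisymm v w := by
    rintro (rfl | h) h'
    · rfl
    · rcases h' with rfl | h'
      · rfl
      · exact absurd (by rwa [neg_sub] : Pos r₁ r₂ (-(w - v))) (h.asymm h1 h2)
  le_total v w := by
    by_cases hvw : v = w
    · exact Or.inl (Or.inl hvw)
    · rcases Pos.total h1 h2 (sub_ne_zero.2 (Ne.symm hvw)) with h | h
      · exact Or.inl (Or.inr h)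
      · rw [neg_sub] at h
        exact Or.inr (Or.inr h)
  toDecidableLE := Classical.decRel _

theorem lo_ord {r₁ r₂ : ℕ → ℕ → Prop} (h1 : SL r₁) (h2 : SL r₂) :
    @IsOrderedAddMonoid GA _ (lo h1 h2).toPartialOrder.toPreorder := by
  refine @IsOrderedAddMonoid.mk GA _ (lo h1 h2).toPartialOrder.toPreorder ?_ ?_
  · rintro v w (rfl | h) u
    · exact Or.inl rfl
    · refine Or.inr ?_
      rwa [show w + u - (v + u) = w - v by abel]
  · rintro v w (rfl | h) u
    · exact Or.inl rfl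
    · refine Or.inr ?_
      rwa [show u + w - (u + v) = w - v by abel]

end Pool.Agent.Y566.ON
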