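import Mathlib

set_option autoImplicit false

/-! Local integrality of rational numbers. -/

namespace Pool.Agent.Y566.ON

/-- `q` is integral at `p`. -/
def Zl (p : ℕ) (q : ℚ) : Prop := padicNorm p q ≤ 1

section

variable {p : ℕ} (hp : p.Prime)

theorem Zl.zero : Zl p 0 := by
  unfold Zl
  rw [padicNorm.zero]
  exact zero_le_one

include hp

theorem Zl.add {a b : ℚ} (ha : Zl p a) (hb : Zl p b) : Zl p (a + b) := by
  haveI := Fact.mk hp
  exact padicNorm.nonarchimedean.trans (max_le ha hb)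

theorem Zl.neg {a : ℚ} (ha : Zl p a) : Zl p (-a) := by
  haveI := Fact.mk hp
  unfold Zl
  rw [padicNorm.neg]
  exact ha

theorem Zl.sub {a b : ℚ} (ha : Zl p a) (hb : Zl p b) : Zl p (a - b) := by
  haveI := Fact.mk hp
  exact padicNorm.sub.trans (max_le ha hb)

theorem Zl.int (n : ℤ) : Zl p n := by
  haveI := Fact.mk hp
  exact padicNorm.of_int n

/-- Division by another prime. -/
theorem Zl.div {q : ℕ} (hq : q.Prime) (hpq : p ≠ q) {a : ℚ} (ha : Zl p a) (k : ℕ) :
    Zl p (a / (q : ℚ) ^ k) := by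
  haveI := Fact.mk hp
  haveI := Fact.mk hq
  have h1 : padicNorm p ((q : ℚ) ^ k) = 1 := by
    have h2 : ((q : ℚ) ^ k) = ((q ^ k : ℕ) : ℚ) := by push_cast; rfl
    rw [h2, padicNorm.nat_eq_one_iff]
    intro h3
    exact hpq ((Nat.prime_dvd_prime_iff_eq hp hq).1 (hp.dvd_of_dvd_pow h3))
  unfold Zl
  rw [padicNorm.div, h1, div_one]
  exact ha

/-- Infinitely divisible elements. -/
theorem Zl.eq_zero {a : ℚ} (h : ∀ k : ℕ, Zl p (a / (p : ℚ) ^ k)) : a = 0 := by
  haveI := Fact.mk hp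
  by_contra ha
  have h1 : 0 < padicNorm p a := lt_of_le_of_ne (padicNorm.nonneg a) (padicNorm.nonzero ha).symm
  have hp1 : (1 : ℚ) < p := by exact_mod_cast hp.one_lt
  obtain ⟨k, hk⟩ := pow_unbounded_of_one_lt (padicNorm p a)⁻¹ hp1
  have h2 := h k
  unfold Zl at h2
  have h3 : padicNorm p ((p : ℚ) ^ k) = ((p : ℚ) ^ k)⁻¹ := by
    induction k with
    | zero => simp
    | succ k ih =>
      have : ∀ k : ℕ, padicNorm p ((p : ℚ) ^ k) = ((p : ℚ) ^ k)⁻¹ := by
        intro k
        induction k with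
        | zero => simp
        | succ k ih => rw [pow_succ, padicNorm.mul, ih, padicNorm.padicNorm_p_of_prime, mul_inv]
      exact this _
  rw [padicNorm.div, h3, div_inv_eq_mul] at h2
  have h4 : 1 < padicNorm p a * (p : ℚ) ^ k := by
    have h5 := mul_lt_mul_of_pos_left hk h1
    rwa [mul_inv_cancel₀ h1.ne'] at h5
  exact absurd h2 (not_le.2 h4)

end

/-- Integral everywhere. -/
theorem Zl.integer {a : ℚ} (h : ∀ p : ℕ, p.Prime → Zl p a) : ∃ n : ℤ, a = n := by
  by_cases hd : a.den = 1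
  · exact ⟨a.num, (Rat.coe_int_num_of_den_eq_one hd).symm⟩
  · exfalso
    obtain ⟨p, hp, hpd⟩ := Nat.exists_prime_and_dvd hd
    haveI := Fact.mk hp
    have h1 : a * (a.den : ℚ) = (a.num : ℚ) := Rat.mul_den_eq_num a
    have h2 : padicNorm p (a.den : ℚ) < 1 := (padicNorm.nat_lt_one_iff a.den).2 hpd
    have h3 : padicNorm p (a.num : ℚ) < 1 := by
      rw [← h1, padicNorm.mul]
      exact (mul_le_of_le_one_left (padicNorm.nonneg _) (h p hp)).trans_lt h2
    have h4 := (padicNorm.int_lt_one_iff a.num).1 h3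
    have h5 : p ∣ a.num.natAbs := by
      rw [← Int.natCast_dvd]
      exact h4
    have h6 := Nat.dvd_gcd h5 hpd
    rw [Nat.Coprime.gcd_eq_one a.reduced] at h6
    exact hp.one_lt.ne' (Nat.dvd_one.1 h6)

end Pool.Agent.Y566.ON
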